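import Mathlib

set_option autoImplicit false

open Set

namespace Pool.Agent.Helper584.RM

universe u v w

/-! ### The forcing language

A sentence of the forcing language of a preordered set `P` of conditions is represented by the set of
the conditions which force it. A name for a relation on ground model sets is a map to sets of
conditions: the pair `(x, y)` is in the relation named by `R` iff the generic filter meets `R x y`. -/

section Language

variable {P : Type u} [Preorder P]

/-- `p` forces `not φ` iff no `q ≤ p` forces `φ`. -/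
def fnot (φ : Set P) : Set P := {p | ∀ q ≤ p, q ∉ φ}

/-- `p` forces `φ and ψ` iff it forces both. -/
def fand (φ ψ : Set P) : Set P := {p | p ∈ φ ∧ p ∈ ψ}

/-- `p` forces `for all i, φ i` iff it forces every `φ i`. -/
def fall {ι : Sort v} (φ : ι → Set P) : Set P := {p | ∀ i, p ∈ φ i}

/-- `φ implies ψ` is `not (φ and not ψ)`. -/
def fimp (φ ψ : Set P) : Set P := fnot (fand φ (fnot ψ))

/-- `there is i with φ i` is `not for all i, not φ i`. -/
def fex {ι : Sort v} (φ : ι → Set P) : Set P := fnot (fall fun i => fnot (φ i))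

/-- An absolute statement about ground model objects. -/
def fground (h : Prop) : Set P := {_p | h}

/-- `p` forces that the generic filter meets the set `N` of conditions:
the set of `r` lying below some member of `N` is dense below `p`. -/
def meets (N : Set P) : Set P := {p | ∀ q ≤ p, ∃ r ≤ q, ∃ s ∈ N, r ≤ s}

/-- The relation named by `R` is a function from `X` to `Y`. -/
def IsFun {X : Type v} {Y : Type w} (R : X → Y → Set P) : Set P :=
  fand (fall fun x => fex fun y => meets (R x y))
    (fall fun x => fall fun y => fall fun y' =>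
      fimp (fand (meets (R x y)) (meets (R x y'))) (fground (y = y')))

end Language

/-! ### The statements -/

section Statements

variable (P : Type) [Preorder P] (W : Type) [LinearOrder W]

/-- Every nonempty subset of `W` has a least element. -/
def WO : Set P :=
  fall fun S : W → Set P => fimp (fex fun w => meets (S w))
    (fex fun w => fand (meets (S w)) (fall fun v : W => fimp (meets (S v)) (fground (w ≤ v))))

variable {P W} in
/-- The name `X` names a function `x : W → ℕ → ℕ`, the name `U` names, for all `k, n, m`, a set of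
`n`-tuples of sequences of length `m` of natural numbers; the union over `m` of the corresponding
basic open sets is the `k`-th open subset of the `n`-th power of the Baire space.
The sentence says that the `n`-tuple `(x (ξ 0), …, x (ξ (n - 1)))` is in the `k`-th open set. -/
def InOpen (X : W → ℕ → ℕ → Set P) (U : ℕ → (n m : ℕ) → (Fin n → Fin m → ℕ) → Set P) (k n : ℕ)
    (ξ : Fin n → W) : Set P :=
  fex fun m : ℕ => fex fun v : Fin n → Fin m → ℕ =>
    fand (fall fun i : Fin n => fall fun l : Fin m => meets (X (ξ i) l (v i l))) (meets (U k n m v))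

/-- The symmetry principle for `W`: for every function `x` from `W` to the Baire space and every
countable family of open subsets of the finite powers of the Baire space, if all tuples
`(x (ξ 0), …, x (ξ (n - 1)))` with `ξ 0 < … < ξ (n - 1)` are in the given open subsets of the `n`-th
power, then there is a one-to-one sequence `i : ℕ → W` such that for all one-to-one tuples
`j 0, …, j (n - 1)` (in any order) the tuple `(x (i (j 0)), …, x (i (j (n - 1))))` is in them. -/
def Sym : Set P :=
  fall fun X : W → ℕ → ℕ → Set P =>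
    fall fun U : ℕ → (n m : ℕ) → (Fin n → Fin m → ℕ) → Set P =>
      fimp
        (fand (fall fun w => IsFun (X w))
          (fall fun k => fall fun n => fall fun ξ : Fin n → W =>
            fimp (fground (StrictMono ξ)) (InOpen X U k n ξ)))
        (fex fun I : ℕ → W → Set P =>
          fand (IsFun I)
            (fand
              (fall fun a => fall fun b => fall fun w =>
                fimp (fand (meets (I a w)) (meets (I b w))) (fground (a = b)))
              (fall fun k => fall fun n => fall fun j : Fin n → ℕ => fall fun ξ : Fin n → W =>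
                fimp (fand (fground (Function.Injective j))
                  (fall fun a => meets (I (j a) (ξ a)))) (InOpen X U k n ξ))))

/-- The covering principle for `W`: for every `α : W`, the Cantor space is not the union of a family
of null sets indexed by the finite sequences of elements of `W` below `α`. The null sets are given
by families `C L m` of finite sequences of bits, the sum of `2 ^ (-length s)` over `s ∈ C L m` being
at most `2 ^ (-m)`; the null set with the index `L` consists of all `d` such that for all `m` some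
member of `C L m` is an initial segment of `d`. -/
def Cov : Set P :=
  fall fun α : W => fall fun C : List (Iio α) → ℕ → List Bool → Set P =>
    fimp
      (fall fun L => fall fun m => fall fun F : Finset (List Bool) =>
        fimp (fall fun s : F => meets (C L m s.1))
          (fground (∑ s ∈ F, (2⁻¹ : ℚ) ^ s.length ≤ 2⁻¹ ^ m)))
      (fex fun d : ℕ → Bool → Set P =>
        fand (IsFun d)
          (fall fun L => fex fun m => fall fun s : List Bool =>
            fimp (meets (C L m s)) (fex fun i : Fin s.length => fnot (meets (d i (s.get i))))))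

/-- `W` is a well-ordered set which has the symmetry property and the covering property. -/
def Phi : Set P := fand (WO P W) (fand (Sym P W) (Cov P W))

end Statements

/-! ### The same statements in the ordinary sense -/

section Plain

variable (W : Type) [LinearOrder W]

/-- Every nonempty subset of `W` has a least element. -/
def WO₀ : Prop := ∀ S : W → Prop, (∃ w, S w) → ∃ w, S w ∧ ∀ v, S v → w ≤ v

/-- The symmetry principle. -/
def Sym₀ : Prop :=
  ∀ (x : W → ℕ → ℕ) (U : ℕ → (n m : ℕ) → (Fin n → Fin m → ℕ) → Prop),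
    (∀ (k n : ℕ) (ξ : Fin n → W), StrictMono ξ → ∃ m : ℕ, U k n m fun a l => x (ξ a) l) →
    ∃ i : ℕ → W, Function.Injective i ∧
      ∀ (k n : ℕ) (j : Fin n → ℕ), Function.Injective j →
        ∃ m : ℕ, U k n m fun a l => x (i (j a)) l

/-- The covering principle. -/
def Cov₀ : Prop :=
  ∀ (α : W) (C : List (Iio α) → ℕ → List Bool → Prop),
    (∀ (L : List (Iio α)) (m : ℕ) (F : Finset (List Bool)), (∀ s ∈ F, C L m s) →
      ∑ s ∈ F, (2⁻¹ : ℚ) ^ s.length ≤ 2⁻¹ ^ m) →
    ∃ d : ℕ → Bool, ∀ L : List (Iio α), ∃ m : ℕ, ∀ s : List Bool, C L m s →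
      ∃ i : Fin s.length, d i ≠ s.get i

/-- The conjunction. -/
def Phi₀ : Prop := WO₀ W ∧ Sym₀ W ∧ Cov₀ W

end Plain

/-! ### For the trivial forcing notion the sentences have their ordinary meaning -/

section Trivial

theorem u_fnot {φ : Set PUnit.{1}} : PUnit.unit ∈ fnot φ ↔ ¬ PUnit.unit ∈ φ :=
  ⟨fun h => h _ le_rfl, fun h q _ => by cases q; exact h⟩

theorem u_fand {φ ψ : Set PUnit.{1}} :
    PUnit.unit ∈ fand φ ψ ↔ (PUnit.unit ∈ φ ∧ PUnit.unit ∈ ψ) := Iff.rfl

theorem u_fall {ι : Sort v} {φ : ι → Set PUnit.{1}} :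
    PUnit.unit ∈ fall φ ↔ ∀ i, PUnit.unit ∈ φ i := Iff.rfl

theorem u_fimp {φ ψ : Set PUnit.{1}} :
    PUnit.unit ∈ fimp φ ψ ↔ (PUnit.unit ∈ φ → PUnit.unit ∈ ψ) := by
  unfold fimp
  rw [u_fnot, u_fand, u_fnot]
  tauto

theorem u_fex {ι : Sort v} {φ : ι → Set PUnit.{1}} :
    PUnit.unit ∈ fex φ ↔ ∃ i, PUnit.unit ∈ φ i := by
  unfold fex
  rw [u_fnot, u_fall]
  simp only [u_fnot]
  push Not
  rfl

theorem u_fground {h : Prop} : PUnit.unit ∈ (fground h : Set PUnit.{1}) ↔ h := Iff.rfl

theorem u_meets {N : Set PUnit.{1}} : PUnit.unit ∈ meets N ↔ PUnit.unit ∈ N := by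
  constructor
  · intro h
    obtain ⟨r, _, s, hs, _⟩ := h PUnit.unit le_rfl
    exact hs
  · intro h q _
    exact ⟨PUnit.unit, le_rfl, PUnit.unit, h, le_rfl⟩

theorem u_isFun {X : Type v} {Y : Type w} {R : X → Y → Set PUnit.{1}} :
    PUnit.unit ∈ IsFun R ↔
      (∀ x, ∃ y, PUnit.unit ∈ R x y) ∧
        ∀ x y y', PUnit.unit ∈ R x y → PUnit.unit ∈ R x y' → y = y' := by
  unfold IsFun
  rw [u_fand, u_fall, u_fall]
  simp only [u_fex, u_fall, u_fimp, u_fand, u_meets, u_fground, and_imp]

theorem u_fun {X : Type v} {Y : Type w} {R : X → Y → Set PUnit.{1}} (h : PUnit.unit ∈ IsFun R) :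
    ∃ f : X → Y, ∀ x y, PUnit.unit ∈ R x y ↔ f x = y := by
  obtain ⟨h1, h2⟩ := u_isFun.1 h
  choose f hf using h1
  exact ⟨f, fun x y => ⟨fun hy => h2 x _ _ (hf x) hy, fun hy => hy ▸ hf x⟩⟩

variable (W : Type) [LinearOrder W]

theorem wo_iff : PUnit.unit ∈ WO PUnit.{1} W ↔ WO₀ W := by
  unfold WO WO₀
  simp only [u_fall, u_fimp, u_fex, u_meets, u_fand, u_fground]
  constructor
  · intro h S
    exact h fun w => {_p | S w}
  · intro h S
    exact h fun w => PUnit.unit ∈ S w

omit [LinearOrder W] in
theorem inOpen_iff {x : W → ℕ → ℕ} {X : W → ℕ → ℕ → Set PUnit.{1}}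
    (hX : ∀ w l a, PUnit.unit ∈ X w l a ↔ x w l = a)
    {U : ℕ → (n m : ℕ) → (Fin n → Fin m → ℕ) → Set PUnit.{1}} {k n : ℕ} {ξ : Fin n → W} :
    PUnit.unit ∈ InOpen X U k n ξ ↔ ∃ m : ℕ, PUnit.unit ∈ U k n m fun a l => x (ξ a) l := by
  unfold InOpen
  simp only [u_fex, u_fand, u_fall, u_meets, hX]
  constructor
  · rintro ⟨m, v, h1, h2⟩
    refine ⟨m, ?_⟩
    have : v = fun (a : Fin n) (l : Fin m) => x (ξ a) l := by
      funext a l; exact (h1 a l).symm
    rw [← this]; exact h2
  · rintro ⟨m, h⟩
    exact ⟨m, _, fun _ _ => rfl, h⟩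

theorem sym_iff : PUnit.unit ∈ Sym PUnit.{1} W ↔ Sym₀ W := by
  unfold Sym Sym₀
  simp only [u_fall, u_fimp, u_fex, u_fand, u_meets, u_fground]
  constructor
  · intro h x U hU
    obtain ⟨I, hI, hI1, hI2⟩ := h (fun w l a => {_p | x w l = a}) (fun k n m v => {_p | U k n m v})
      ⟨fun w => u_isFun.2 ⟨fun l => ⟨x w l, rfl⟩, fun l a b h1 h2 => h1.symm.trans h2⟩,
        fun k n ξ hξ => (inOpen_iff W (fun _ _ _ => Iff.rfl)).2 (hU k n ξ hξ)⟩
    obtain ⟨i, hi⟩ := u_fun hI
    refine ⟨i, fun a b hab => hI1 a b (i a) ⟨(hi _ _).2 rfl, (hi _ _).2 hab.symm⟩, ?_⟩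
    intro k n j hj
    exact (inOpen_iff W (x := x) (fun _ _ _ => Iff.rfl)).1
      (hI2 k n j (fun a => i (j a)) ⟨hj, fun a => (hi _ _).2 rfl⟩)
  · intro h X U hU
    have h1 : ∀ w, ∃ f : ℕ → ℕ, ∀ l a, PUnit.unit ∈ X w l a ↔ f l = a := fun w => u_fun (hU.1 w)
    choose x hx using h1
    obtain ⟨i, hi, hi2⟩ := h x (fun k n m v => PUnit.unit ∈ U k n m v)
      (fun k n ξ hξ => (inOpen_iff W hx).1 (hU.2 k n ξ hξ))
    refine ⟨fun a w => {_p | i a = w}, u_isFun.2 ⟨fun a => ⟨i a, rfl⟩,
      fun a w w' h1 h2 => h1.symm.trans h2⟩, fun a b w h1 => hi (h1.1.trans h1.2.symm), ?_⟩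
    rintro k n j ξ ⟨hj, h2⟩
    have : ξ = fun a => i (j a) := by
      funext a; exact (h2 a).symm
    subst this
    exact (inOpen_iff W hx).2 (hi2 k n j hj)

theorem cov_iff : PUnit.unit ∈ Cov PUnit.{1} W ↔ Cov₀ W := by
  unfold Cov Cov₀
  simp only [u_fall, u_fimp, u_fex, u_fand, u_meets, u_fground, u_fnot, Subtype.forall]
  constructor
  · intro h α C hC
    obtain ⟨D, hD, hD2⟩ := h α (fun L m s => {_p | C L m s}) (fun L m F hF => hC L m F hF)
    obtain ⟨d, hd⟩ := u_fun hD
    refine ⟨d, fun L => ?_⟩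
    obtain ⟨m, hm⟩ := hD2 L
    refine ⟨m, fun s hs => ?_⟩
    obtain ⟨i, hi⟩ := hm s hs
    exact ⟨i, fun h => hi ((hd _ _).2 h)⟩
  · intro h α C hC
    obtain ⟨d, hd⟩ := h α (fun L m s => PUnit.unit ∈ C L m s) hC
    refine ⟨fun i b => {_p | d i = b}, u_isFun.2 ⟨fun i => ⟨d i, rfl⟩,
      fun a w w' h1 h2 => h1.symm.trans h2⟩, fun L => ?_⟩
    obtain ⟨m, hm⟩ := hd L
    refine ⟨m, fun s hs => ?_⟩
    obtain ⟨i, hi⟩ := hm s hs
    exact ⟨i, fun h => hi h⟩

/-- For the trivial forcing notion the sentence has its ordinary meaning. -/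
theorem phi_iff : PUnit.unit ∈ Phi PUnit.{1} W ↔ Phi₀ W := by
  unfold Phi Phi₀
  rw [u_fand, u_fand, wo_iff, sym_iff, cov_iff]

end Trivial

end Pool.Agent.Helper584.RM
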