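import Pool.Agent.Helper584_RM.ForceSym

set_option autoImplicit false
set_option linter.all false

open Set MeasureTheory Cardinal ProbabilityTheory
open scoped ENNReal

namespace Pool.Agent.Helper584.RM

theorem cm_indep {J : Type} {A B : Set (J → Bool)} (hA : MeasurableSet A) (hB : MeasurableSet B)
    {S T : Set J} (hS : Dep A S) (hT : Dep B T) (hST : Disjoint S T) :
    cm J (A ∩ B) = cm J A * cm J B := by
  have h1 : iIndepFun (fun (j : J) (ω : J → Bool) => ω j) (cm J) :=
    iIndepFun_infinitePi (P := fun _ : J => (PMF.uniformOfFintype Bool).toMeasure)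
      (X := fun _ b => b) (fun _ => measurable_id)
  have h2 := indep_iSup_of_disjoint (fun j => (measurable_pi_apply j).comap_le) h1.iIndep hST
  have h3 : ∀ (A : Set (J → Bool)) (S : Set J), MeasurableSet A → Dep A S →
      MeasurableSet[⨆ i ∈ S, MeasurableSpace.comap (fun (ω : J → Bool) => ω i) inferInstance] A := by
    intro A S hA hS
    have h4 : A = (fun (ω : J → Bool) (i : S) => ω i) ⁻¹' (ext (Subtype.val : S → J) ⁻¹' A) := by
      ext ω
      exact hS.iff fun s hs => ext_agree (g := (Subtype.val : S → J)) Subtype.val_injective ω s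
        (by simpa using hs)
    rw [h4]
    have h5 : @Measurable _ _ (⨆ i ∈ S, MeasurableSpace.comap (fun (ω : J → Bool) => ω i)
        inferInstance) _ (fun (ω : J → Bool) (i : S) => ω i) := by
      refine @measurable_pi_lambda _ _ _ (_) _ _ fun i => ?_
      refine Measurable.mono (ma := MeasurableSpace.comap (fun (ω : J → Bool) => ω i.1) inferInstance)
        (comap_measurable _) ?_ le_rfl
      exact le_iSup₂_of_le i.1 i.2 le_rfl
    exact h5 (measurable_ext _ hA)
  exact (Indep_iff _ _ _).1 h2 A B (h3 A S hA hS) (h3 B T hB hT)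

/-- the cylinder -/
theorem cm_cyl {J : Type} {t : ℕ → J} (ht : Function.Injective t) (s : List Bool) :
    cm J {ω | ∀ i : Fin s.length, ω (t i) = s.get i} = (2⁻¹ : ℝ≥0∞) ^ s.length := by
  classical
  have h1 : {ω : J → Bool | ∀ i : Fin s.length, ω (t i) = s.get i} =
      (fun (ω : J → Bool) (i : Fin s.length) => ω (t i)) ⁻¹' {fun i => s.get i} := by
    ext ω
    simp only [mem_ofPred_eq, mem_preimage, mem_singleton_iff, funext_iff]
  rw [h1, cm_preimage (g := fun i : Fin s.length => t i)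
    (fun a b h => Fin.ext (ht h)) (measurableSet_singleton _)]
  have h2 : ({fun i => s.get i} : Set (Fin s.length → Bool)) =
      Set.pi (Finset.univ : Finset (Fin s.length)) fun i => {s.get i} := by
    ext y
    simp [funext_iff]
  rw [h2, cm, Measure.infinitePi_pi _ (fun _ _ => measurableSet_singleton _)]
  rw [Finset.prod_congr rfl (g := fun _ => (2⁻¹ : ℝ≥0∞))]
  · simp
  · intro j _
    rw [PMF.toMeasure_apply_singleton _ _ (measurableSet_singleton _)]
    simp

theorem measurableSet_cyl {J : Type} (t : ℕ → J) (s : List Bool) :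
    MeasurableSet {ω : J → Bool | ∀ i : Fin s.length, ω (t i) = s.get i} := by
  have : {ω : J → Bool | ∀ i : Fin s.length, ω (t i) = s.get i} =
      ⋂ i : Fin s.length, (fun ω : J → Bool => ω (t i)) ⁻¹' {s.get i} := by
    ext ω; simp
  rw [this]
  exact MeasurableSet.iInter fun i => (measurable_pi_apply _) (measurableSet_singleton _)

/-- the sum over a finite set, in the extended nonnegative reals -/
theorem sum_cast (F : Finset (List Bool)) (m : ℕ) :
    (∑ s ∈ F, (2⁻¹ : ℚ) ^ s.length ≤ 2⁻¹ ^ m) ↔ (∑ s ∈ F, (2⁻¹ : ℝ≥0∞) ^ s.length ≤ 2⁻¹ ^ m) := by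
  have h0 : (2⁻¹ : ℝ≥0∞) = ENNReal.ofReal (2⁻¹ : ℝ) := by
    rw [ENNReal.ofReal_inv_of_pos (by norm_num)]; simp
  have h1 : ∀ n : ℕ, (2⁻¹ : ℝ≥0∞) ^ n = ENNReal.ofReal ((2⁻¹ : ℝ) ^ n) := by
    intro n
    rw [h0, ENNReal.ofReal_pow (by norm_num)]
  simp only [h1]
  rw [← ENNReal.ofReal_sum_of_nonneg (fun _ _ => by positivity),
    ENNReal.ofReal_le_ofReal_iff (by positivity)]
  rw [← Rat.cast_le (K := ℝ)]
  push_cast
  rfl

section

variable {Ω : Type} [MeasurableSpace Ω] {μ : Measure Ω} [IsProbabilityMeasure μ]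

/-- the measure estimate -/
theorem tsum_le {q : Set Ω} (hq : MeasurableSet q) {N : List Bool → Set Ω}
    (hN : ∀ s, MeasurableSet (N s)) (m : ℕ)
    (h : ∀ F : Finset (List Bool), ¬ (∑ s ∈ F, (2⁻¹ : ℝ≥0∞) ^ s.length ≤ 2⁻¹ ^ m) →
      μ (q ∩ ⋂ s ∈ F, N s) = 0) :
    ∑' s : List Bool, μ (q ∩ N s) * (2⁻¹ : ℝ≥0∞) ^ s.length ≤ 2⁻¹ ^ m := by
  classical
  have h1 : ∀ s : List Bool, μ (q ∩ N s) * (2⁻¹ : ℝ≥0∞) ^ s.length =
      ∫⁻ ω in q, (N s).indicator (fun _ => (2⁻¹ : ℝ≥0∞) ^ s.length) ω ∂μ := by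
    intro s
    rw [lintegral_indicator_const (hN s), Measure.restrict_apply (hN s), mul_comm, inter_comm]
  simp_rw [h1]
  rw [← lintegral_tsum fun s => (measurable_const.indicator (hN s)).aemeasurable]
  have h2 : ∀ᵐ ω ∂(μ.restrict q),
      ∑' s : List Bool, (N s).indicator (fun _ => (2⁻¹ : ℝ≥0∞) ^ s.length) ω ≤ 2⁻¹ ^ m := by
    have h3 : μ (⋃ F : Finset (List Bool),
        ⋃ (_ : ¬ (∑ s ∈ F, (2⁻¹ : ℝ≥0∞) ^ s.length ≤ 2⁻¹ ^ m)), q ∩ ⋂ s ∈ F, N s) = 0 :=
      measure_iUnion_null fun F => measure_iUnion_null fun hF => h F hF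
    rw [ae_restrict_iff' hq]
    have h4 := measure_eq_zero_iff_ae_notMem.1 h3
    filter_upwards [h4] with ω hω hωq
    rw [ENNReal.tsum_eq_iSup_sum]
    refine iSup_le fun F => ?_
    by_contra hcon
    apply hω
    refine mem_iUnion.2 ⟨F.filter fun s => ω ∈ N s, mem_iUnion.2 ⟨?_, hωq, ?_⟩⟩
    · intro h5
      apply hcon
      refine le_trans (le_of_eq ?_) h5
      rw [Finset.sum_filter]
      refine Finset.sum_congr rfl fun s _ => ?_
      by_cases hs : ω ∈ N s
      · rw [if_pos hs, indicator_of_mem hs]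
      · rw [if_neg hs, indicator_of_notMem hs]
    · refine mem_iInter₂.2 fun s hs => ?_
      exact (Finset.mem_filter.1 hs).2
  refine (lintegral_mono_ae h2).trans ?_
  rw [lintegral_const]
  refine (mul_le_mul_right (α := ℝ≥0∞) ?_ _).trans (mul_one _).le
  rw [Measure.restrict_apply_univ]
  exact prob_le_one

end

theorem rep_meets_of {Ω : Type} [MeasurableSpace Ω] {μ : Measure Ω} {A : Set Ω}
    (hA : MeasurableSet A) : Rep (meets {r : Pos μ | r.1 ⊆ A}) A := by
  refine ⟨hA, fun p => ⟨fun hp => ?_, fun hp q hq => ?_⟩⟩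
  · by_contra hne
    obtain ⟨r, hr, s, hs, hrs⟩ := hp ⟨p.1 \ A, p.2.1.diff hA, hne⟩ sdiff_subset
    apply r.2.2
    have : r.1 = ∅ := by
      ext x
      simp only [mem_empty_iff_false, iff_false]
      intro hx
      exact (hr hx).2 (hs (hrs hx))
    rw [this]; exact measure_empty
  · have h1 : μ (q.1 ∩ A) ≠ 0 := by
      intro h
      apply q.2.2
      refine measure_mono_null ?_ (measure_union_null h
        (measure_mono_null (show q.1 \ A ⊆ p.1 \ A from fun x hx => ⟨hq hx.1, hx.2⟩) hp))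
      intro x hx
      by_cases hxA : x ∈ A
      · exact Or.inl ⟨hx, hxA⟩
      · exact Or.inr ⟨hx, hxA⟩
    refine ⟨⟨q.1 ∩ A, q.2.1.inter hA, h1⟩, inter_subset_left, ⟨q.1 ∩ A, q.2.1.inter hA, h1⟩,
      inter_subset_right, le_rfl⟩

theorem force_cov {J W : Type} [LinearOrder W] (hJ : ¬ #J ≤ 𝔠)
    (hI : ∀ w : W, #(List (Iio w)) ≤ 𝔠) (p : Pos (cm J)) : p ∈ Cov (Pos (cm J)) W := by
  classical
  intro α C
  refine mem_fimp_of fun q _ hq => ?_
  choose N hN using fun L m s => rep_meets (C L m s)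
  choose S hS hS' using fun L m s => exists_dep (hN L m s).1
  obtain ⟨Sq, hSq, hSq'⟩ := exists_dep q.2.1
  let T : Set J := ⋃ L, ⋃ m, ⋃ s, (S L m s ∪ Sq)
  have hT : #T ≤ 𝔠 := by
    have h1 : ∀ L, (⋃ m, ⋃ s, (S L m s ∪ Sq)).Countable := fun L =>
      countable_iUnion fun m => countable_iUnion fun s => (hS L m s).union hSq
    refine (Cardinal.mk_iUnion_le _).trans ?_
    refine (mul_le_mul' (hI α) (?_ : _ ≤ 𝔠)).trans continuum_mul_self.le
    refine ciSup_le' fun L => ?_
    exact (Cardinal.mk_le_aleph0_iff.2 (h1 L).to_subtype).trans aleph0_le_continuum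
  have hTc : Infinite (Tᶜ : Set J) := by
    by_contra hfin
    rw [not_infinite_iff_finite] at hfin
    apply hJ
    have h1 : #(univ : Set J) ≤ #T + #(Tᶜ : Set J) := by
      rw [← union_compl_self T]; exact Cardinal.mk_union_le _ _
    rw [Cardinal.mk_univ] at h1
    refine h1.trans ((add_le_add hT ?_).trans (continuum_add_self).le)
    exact countable_le_c
  let t : ℕ → J := fun n => (Infinite.natEmbedding (Tᶜ : Set J) n).1
  have ht : Function.Injective t := fun a b h =>
    (Infinite.natEmbedding (Tᶜ : Set J)).injective (Subtype.ext h)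
  have htT : ∀ n, t n ∉ T := fun n => (Infinite.natEmbedding (Tᶜ : Set J) n).2
  let d : ℕ → Bool → Set (Pos (cm J)) := fun i b => {r | r.1 ⊆ {ω | ω (t i) = b}}
  have hdm : ∀ i b, MeasurableSet {ω : J → Bool | ω (t i) = b} := fun i b =>
    (measurable_pi_apply (t i) : Measurable fun ω : J → Bool => ω (t i)) (measurableSet_singleton b)
  have hd : ∀ i b, Rep (meets (d i b)) {ω | ω (t i) = b} := fun i b => rep_meets_of (hdm i b)
  refine mem_fex_of fun r hr => ⟨d, r, le_rfl, ⟨?_, ?_⟩, ?_⟩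
  · intro i
    refine ((rep_fex fun b => hd i b).2 r).2 ?_
    have : r.1 \ ⋃ b, {ω : J → Bool | ω (t i) = b} = ∅ := by
      ext ω; simp
    rw [this]; exact measure_empty
  · intro i b b'
    refine ((rep_fimp (rep_fand (hd i b) (hd i b')) (rep_fground (b = b'))).2 r).2 ?_
    have : r.1 \ (({ω : J → Bool | ω (t i) = b} ∩ {ω | ω (t i) = b'})ᶜ ∪ {_x | b = b'}) = ∅ := by
      ext ω
      simp only [mem_sdiff, mem_union, mem_compl_iff, mem_inter_iff, mem_ofPred_eq, not_or, not_not,
        mem_empty_iff_false, iff_false]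
      rintro ⟨_, ⟨h1, h2⟩, h3⟩
      exact h3 (h1.symm.trans h2)
    rw [this]; exact measure_empty
  · intro L
    refine ((rep_fex fun m => rep_fall fun s : List Bool => rep_fimp (hN L m s)
      (rep_fex fun i : Fin s.length => rep_fnot (hd i (s.get i)))).2 r).2 ?_
    refine measure_mono_null (t := ⋂ m : ℕ, ⋃ s : List Bool, ((q.1 ∩ N L m s) ∩
      {ω : J → Bool | ∀ i : Fin s.length, ω (t i) = s.get i})) ?_ ?_
    · rintro ω ⟨hω, hω'⟩
      refine mem_iInter.2 fun m => ?_
      have h1 : ¬ ω ∈ ⋂ s : List Bool, ((N L m s)ᶜ ∪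
          ⋃ i : Fin s.length, {ω : J → Bool | ω (t i) = s.get i}ᶜ) := fun h =>
        hω' (mem_iUnion.2 ⟨m, h⟩)
      rw [mem_iInter] at h1
      push Not at h1
      obtain ⟨s, hs⟩ := h1
      rw [mem_union, not_or, mem_compl_iff, not_not, mem_iUnion] at hs
      refine mem_iUnion.2 ⟨s, ⟨hr hω, hs.1⟩, fun i => ?_⟩
      by_contra hne
      exact hs.2 ⟨i, hne⟩
    · have hbound : ∀ m : ℕ, cm J (⋃ s : List Bool, ((q.1 ∩ N L m s) ∩
          {ω : J → Bool | ∀ i : Fin s.length, ω (t i) = s.get i})) ≤ 2⁻¹ ^ m := by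
        intro m
        refine (measure_iUnion_le _).trans ?_
        have h1 : ∀ s : List Bool, cm J ((q.1 ∩ N L m s) ∩
            {ω : J → Bool | ∀ i : Fin s.length, ω (t i) = s.get i}) =
            cm J (q.1 ∩ N L m s) * (2⁻¹ : ℝ≥0∞) ^ s.length := by
          intro s
          rw [← cm_cyl ht s]
          refine cm_indep (q.2.1.inter (hN L m s).1) (measurableSet_cyl t s) (S := T)
            (T := range t) ?_ ?_ ?_
          · intro ω ω' h hω
            have hsub : S L m s ∪ Sq ⊆ T := fun x hx =>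
              mem_iUnion.2 ⟨L, mem_iUnion.2 ⟨m, mem_iUnion.2 ⟨s, hx⟩⟩⟩
            exact ⟨(hSq'.mono (subset_union_right.trans hsub)) ω ω' h hω.1,
              ((hS' L m s).mono (subset_union_left.trans hsub)) ω ω' h hω.2⟩
          · intro ω ω' h hω i
            rw [← h _ ⟨_, rfl⟩]
            exact hω i
          · rw [Set.disjoint_left]
            rintro x hx ⟨n, rfl⟩
            exact htT n hx
        simp_rw [h1]
        refine tsum_le q.2.1 (fun s => (hN L m s).1) m fun F hF => ?_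
        have h2 := ((rep_fimp (rep_fall fun s : F => hN L m s.1)
          (rep_fground (∑ s ∈ F, (2⁻¹ : ℚ) ^ s.length ≤ 2⁻¹ ^ m))).2 q).1 (hq L m F)
        refine measure_mono_null ?_ h2
        rintro ω ⟨h3, h4⟩
        refine ⟨h3, ?_⟩
        rintro (h5 | h5)
        · exact h5 (mem_iInter.2 fun s => mem_iInter₂.1 h4 s.1 s.2)
        · exact hF ((sum_cast F m).1 h5)
      refine le_antisymm (ENNReal.le_of_forall_pos_le_add fun ε hε _ => ?_) bot_le
      obtain ⟨m, hm⟩ := ENNReal.exists_inv_two_pow_lt (a := (ε : ℝ≥0∞)) (by exact_mod_cast hε.ne')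
      rw [zero_add]
      exact (measure_mono (iInter_subset _ m)).trans ((hbound m).trans hm.le)

/-- There is a forcing notion `P` which forces `Phi`: forcing with the measurable sets of positive
measure of the product of `𝔠⁺` fair coins. -/
theorem exists_forcing : ∃ (P W : Type) (_ : Preorder P) (_ : LinearOrder W), Nonempty P ∧
    ∀ p : P, p ∈ Phi P W := by
  let W : Type := (Order.succ 𝔠 : Cardinal.{0}).ord.ToType
  have hW : #W = Order.succ 𝔠 := Cardinal.mk_ord_toType _
  have hW1 : ¬ #W ≤ 𝔠 := by rw [hW]; exact not_le.2 (Order.lt_succ _)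
  have hIio : ∀ w : W, #(Iio w) ≤ 𝔠 := fun w => Order.lt_succ_iff.1 (Cardinal.mk_Iio_ord_toType w)
  have hIic : ∀ w : W, #(Iic w) ≤ 𝔠 := by
    intro w
    have h1 : Iic w = insert w (Iio w) := by
      ext x; simp [le_iff_eq_or_lt]
    rw [h1]
    refine Cardinal.mk_insert_le.trans ((add_le_add (hIio w) ?_).trans continuum_add_self.le)
    exact one_le_aleph0.trans aleph0_le_continuum
  have hlist : ∀ w : W, #(List (Iio w)) ≤ 𝔠 := by
    intro w
    refine (Cardinal.mk_list_le_max _).trans ?_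
    exact max_le aleph0_le_continuum (hIio w)
  have hinf : Infinite W := by
    by_contra h
    rw [not_infinite_iff_finite] at h
    exact hW1 countable_le_c
  refine ⟨Pos (cm W), W, inferInstance, inferInstance, ⟨⟨univ, MeasurableSet.univ, by simp⟩⟩,
    fun p => ⟨force_wo p, force_sym hinf hW1 hIic p, force_cov hW1 hlist p⟩⟩

end Pool.Agent.Helper584.RM
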