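import Pool.Agent.Helper584_RM.Lang

set_option autoImplicit false

open Set MeasureTheory

namespace Pool.Agent.Helper584.RM

/-! ### Forcing with the measurable sets of positive measure -/

section Rep

variable {Ω : Type} [MeasurableSpace Ω] (μ : Measure Ω)

/-- The conditions: the measurable sets of positive measure. -/
def Pos : Type := {A : Set Ω // MeasurableSet A ∧ μ A ≠ 0}

/-- The smaller set is the stronger condition. -/
instance : Preorder (Pos μ) where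
  le A B := A.1 ⊆ B.1
  le_refl _ := subset_rfl
  le_trans _ _ _ := Set.Subset.trans

variable {μ}

theorem pos_le {p q : Pos μ} : p ≤ q ↔ p.1 ⊆ q.1 := Iff.rfl

/-- The measurable set `A` is the truth value of the sentence `φ`. -/
def Rep (φ : Set (Pos μ)) (A : Set Ω) : Prop :=
  MeasurableSet A ∧ ∀ p : Pos μ, p ∈ φ ↔ μ (p.1 \ A) = 0

theorem exists_sup [IsFiniteMeasure μ] (N : Set (Pos μ)) :
    ∃ c ⊆ N, c.Countable ∧ ∀ s ∈ N, μ (s.1 \ ⋃ t ∈ c, t.1) = 0 := by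
  let T : Set ℝ := {x | ∃ c ⊆ N, c.Countable ∧ x = μ.real (⋃ t ∈ c, t.1)}
  have hne : T.Nonempty := ⟨_, ∅, empty_subset _, countable_empty, rfl⟩
  have hbdd : BddAbove T := by
    refine ⟨μ.real univ, ?_⟩
    rintro x ⟨c, _, _, rfl⟩
    exact measureReal_mono (subset_univ _)
  have h1 : ∀ n : ℕ, ∃ c ⊆ N, c.Countable ∧ sSup T - 1 / ((n : ℝ) + 1) < μ.real (⋃ t ∈ c, t.1) := by
    intro n
    have h2 : sSup T - 1 / ((n : ℝ) + 1) < sSup T := by
      have : (0 : ℝ) < 1 / ((n : ℝ) + 1) := by positivity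
      linarith
    obtain ⟨x, ⟨c, hc, hc', rfl⟩, hx⟩ := exists_lt_of_lt_csSup hne h2
    exact ⟨c, hc, hc', hx⟩
  choose c hc hc' hc'' using h1
  refine ⟨⋃ n, c n, iUnion_subset hc, countable_iUnion hc', ?_⟩
  intro s hs
  set A : Set Ω := ⋃ t ∈ ⋃ n, c n, t.1 with hA
  have hAm : MeasurableSet A :=
    MeasurableSet.biUnion (countable_iUnion hc') fun t _ => t.2.1
  have h3 : sSup T ≤ μ.real A := by
    refine le_of_forall_pos_le_add fun ε hε => ?_
    obtain ⟨n, hn⟩ := exists_nat_one_div_lt hε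
    have h4 : μ.real (⋃ t ∈ c n, t.1) ≤ μ.real A :=
      measureReal_mono (biUnion_subset_biUnion_left (subset_iUnion c n)) (measure_ne_top _ _)
    linarith [hc'' n]
  have h5 : μ.real (A ∪ s.1) ≤ sSup T := by
    refine le_csSup hbdd ⟨insert s (⋃ n, c n), insert_subset hs (iUnion_subset hc),
      (countable_iUnion hc').insert _, ?_⟩
    rw [biUnion_insert, union_comm]
  have h6 : μ.real (A ∪ s.1) = μ.real A + μ.real (s.1 \ A) := by
    rw [← measureReal_union disjoint_sdiff_right (s.2.1.diff hAm) (measure_ne_top _ _)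
      (measure_ne_top _ _)]
    congr 1
    rw [union_sdiff_self]
  have h7 : μ.real (s.1 \ A) = 0 := by
    have := measureReal_nonneg (μ := μ) (s := s.1 \ A)
    linarith
  exact (measureReal_eq_zero_iff).1 h7

theorem rep_meets [IsFiniteMeasure μ] (N : Set (Pos μ)) : ∃ A, Rep (meets N) A := by
  obtain ⟨c, hcN, hc, hcs⟩ := exists_sup N
  have hAm : MeasurableSet (⋃ t ∈ c, t.1 : Set Ω) := MeasurableSet.biUnion hc fun t _ => t.2.1
  refine ⟨⋃ t ∈ c, t.1, hAm, fun p => ⟨fun hp => ?_, fun hp q hq => ?_⟩⟩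
  · by_contra hne
    obtain ⟨r, hr, s, hs, hrs⟩ := hp ⟨p.1 \ ⋃ t ∈ c, t.1, p.2.1.diff hAm, hne⟩ sdiff_subset
    apply r.2.2
    refine measure_mono_null ?_ (hcs s hs)
    exact fun x hx => ⟨hrs hx, (hr hx).2⟩
  · have h1 : μ (q.1 \ ⋃ t ∈ c, t.1) = 0 :=
      measure_mono_null (sdiff_subset_sdiff_left hq) hp
    have h2 : μ (⋃ t ∈ c, q.1 ∩ t.1) ≠ 0 := by
      intro h
      apply q.2.2
      refine measure_mono_null ?_ (measure_union_null h1 h)
      intro x hx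
      by_cases hxc : x ∈ ⋃ t ∈ c, t.1
      · right
        obtain ⟨t, ht, hxt⟩ := mem_iUnion₂.1 hxc
        exact mem_iUnion₂.2 ⟨t, ht, hx, hxt⟩
      · exact Or.inl ⟨hx, hxc⟩
    have h3 : ∃ t ∈ c, μ (q.1 ∩ t.1) ≠ 0 := by
      by_contra hcon
      push Not at hcon
      exact h2 ((measure_biUnion_null_iff hc).2 hcon)
    obtain ⟨t, ht, h4⟩ := h3
    exact ⟨⟨q.1 ∩ t.1, q.2.1.inter t.2.1, h4⟩, inter_subset_left, t, hcN ht, inter_subset_right⟩

theorem rep_fnot {φ : Set (Pos μ)} {A : Set Ω} (h : Rep φ A) : Rep (fnot φ) Aᶜ := by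
  refine ⟨h.1.compl, fun p => ⟨fun hp => ?_, fun hp q hq hqφ => ?_⟩⟩
  · rw [Set.sdiff_compl]
    by_contra hne
    refine hp ⟨p.1 ∩ A, p.2.1.inter h.1, hne⟩ inter_subset_left ((h.2 _).2 ?_)
    have : (p.1 ∩ A) \ A = ∅ := by
      ext x; simp
    rw [this]; exact measure_empty
  · rw [Set.sdiff_compl] at hp
    have h1 := (h.2 q).1 hqφ
    apply q.2.2
    refine measure_mono_null ?_ (measure_union_null h1 hp)
    intro x hx
    by_cases hxA : x ∈ A
    · exact Or.inr ⟨hq hx, hxA⟩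
    · exact Or.inl ⟨hx, hxA⟩

theorem rep_fand {φ ψ : Set (Pos μ)} {A B : Set Ω} (h : Rep φ A) (h' : Rep ψ B) :
    Rep (fand φ ψ) (A ∩ B) := by
  refine ⟨h.1.inter h'.1, fun p => ?_⟩
  have : p ∈ fand φ ψ ↔ (p ∈ φ ∧ p ∈ ψ) := Iff.rfl
  rw [this, h.2, h'.2, sdiff_inter, measure_union_null_iff]

theorem rep_fall {ι : Type} [Countable ι] {φ : ι → Set (Pos μ)} {A : ι → Set Ω}
    (h : ∀ i, Rep (φ i) (A i)) : Rep (fall φ) (⋂ i, A i) := by
  refine ⟨MeasurableSet.iInter fun i => (h i).1, fun p => ?_⟩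
  have : p ∈ fall φ ↔ ∀ i, p ∈ φ i := Iff.rfl
  rw [this, sdiff_iInter, measure_iUnion_null_iff]
  exact forall_congr' fun i => (h i).2 p

theorem rep_fex {ι : Type} [Countable ι] {φ : ι → Set (Pos μ)} {A : ι → Set Ω}
    (h : ∀ i, Rep (φ i) (A i)) : Rep (fex φ) (⋃ i, A i) := by
  have := rep_fnot (rep_fall fun i => rep_fnot (h i))
  rwa [compl_iInter, iUnion_congr fun i => compl_compl (A i)] at this

theorem rep_fimp {φ ψ : Set (Pos μ)} {A B : Set Ω} (h : Rep φ A) (h' : Rep ψ B) :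
    Rep (fimp φ ψ) (Aᶜ ∪ B) := by
  have := rep_fnot (rep_fand h (rep_fnot h'))
  rwa [compl_inter, compl_compl] at this

open Classical in
theorem rep_fground (h : Prop) : Rep (μ := μ) (fground h) {_x | h} := by
  refine ⟨MeasurableSet.const h, fun p => ?_⟩
  have : p ∈ (fground h : Set (Pos μ)) ↔ h := Iff.rfl
  rw [this]
  by_cases hh : h
  · simp [hh]
  · simp [hh, p.2.2]

/-- Monotonicity of forcing. -/
theorem rep_down {φ : Set (Pos μ)} {A : Set Ω} (h : Rep φ A) {p q : Pos μ} (hq : q ≤ p)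
    (hp : p ∈ φ) : q ∈ φ :=
  (h.2 q).2 (measure_mono_null (sdiff_subset_sdiff_left hq) ((h.2 p).1 hp))

end Rep

/-! ### General facts about the forcing language -/

section General

variable {P : Type} [Preorder P]

theorem mem_fimp_of {φ ψ : Set P} {p : P} (h : ∀ q ≤ p, q ∈ φ → q ∈ ψ) : p ∈ fimp φ ψ :=
  fun q hq hq' => hq'.2 q le_rfl (h q hq hq'.1)

theorem mem_fex_of {ι : Sort*} {φ : ι → Set P} {p : P} (h : ∀ q ≤ p, ∃ i, ∃ r ≤ q, r ∈ φ i) :
    p ∈ fex φ := by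
  intro q hq hq'
  obtain ⟨i, r, hr, hri⟩ := h q hq
  exact hq' i r hr hri

theorem of_mem_fex {ι : Sort*} {φ : ι → Set P} {p : P} (h : p ∈ fex φ) :
    ∃ i, ∃ r ≤ p, r ∈ φ i := by
  have h1 := h p le_rfl
  by_contra hcon
  push Not at hcon
  exact h1 fun i r hr => hcon i r hr

theorem of_mem_fimp {φ ψ : Set P} {p : P} (h : p ∈ fimp φ ψ) (hp : p ∈ φ) : ∃ q ≤ p, q ∈ ψ := by
  by_contra hcon
  push Not at hcon
  exact h p le_rfl ⟨hp, hcon⟩

theorem mem_meets_of {N : Set P} {p : P} (h : p ∈ N) : p ∈ meets N :=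
  fun q hq => ⟨q, le_rfl, p, h, hq⟩

theorem meets_const {h : Prop} {p : P} : p ∈ meets ({_p | h} : Set P) ↔ h := by
  constructor
  · intro hp
    obtain ⟨_, _, s, hs, _⟩ := hp p le_rfl
    exact hs
  · intro hh q _
    exact ⟨q, le_rfl, q, hh, le_rfl⟩

end General

end Pool.Agent.Helper584.RM
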