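import Pool.Agent.Helper584_RM.SymM
import Pool.Agent.Helper584_RM.Rep

set_option autoImplicit false
set_option linter.all false

open Set MeasureTheory Cardinal

namespace Pool.Agent.Helper584.RM

section

variable {Ω : Type} [MeasurableSpace Ω] {μ : Measure Ω} [IsFiniteMeasure μ]

/-- A name of a function from `ℕ` to a countable set gives a random variable. -/
theorem exists_rv {A : Type} [Countable A] [Inhabited A] [MeasurableSpace A]
    {X : ℕ → A → Set (Pos μ)} {N : ℕ → A → Set Ω}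
    (hN : ∀ l a, Rep (meets (X l a)) (N l a)) {q : Pos μ} (hq : q ∈ IsFun X) :
    ∃ x : Ω → ℕ → A, (∀ l, Measurable fun ω => x ω l) ∧ ∃ D : Set Ω, μ D = 0 ∧
      ∀ ω ∈ q.1 \ D, ∀ l a, ω ∈ N l a ↔ x ω l = a := by
  classical
  have h1 : ∀ l, μ (q.1 \ ⋃ a, N l a) = 0 := fun l =>
    ((rep_fex fun a => hN l a).2 q).1 (hq.1 l)
  have h2 : ∀ l a a', a ≠ a' → μ (q.1 ∩ (N l a ∩ N l a')) = 0 := by
    intro l a a' hne
    have h3 := ((rep_fimp (rep_fand (hN l a) (hN l a')) (rep_fground (a = a'))).2 q).1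
      (hq.2 l a a')
    refine measure_mono_null ?_ h3
    rintro ω ⟨h4, h5⟩
    refine ⟨h4, ?_⟩
    rintro (h6 | h6)
    · exact h6 h5
    · exact hne h6
  obtain ⟨e, he⟩ := exists_surjective_nat A
  let D : Set Ω := (⋃ l, q.1 \ ⋃ a, N l a) ∪ ⋃ l, ⋃ a, ⋃ a', ⋃ (_ : a ≠ a'), q.1 ∩ (N l a ∩ N l a')
  have hp : ∀ (l : ℕ) (ω : Ω), ∃ n, ω ∈ N l (e n) ∨ ∀ b, ω ∉ N l b := by
    intro l ω
    by_cases h : ∃ b, ω ∈ N l b
    · obtain ⟨b, hb⟩ := h
      obtain ⟨n, rfl⟩ := he b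
      exact ⟨n, Or.inl hb⟩
    · push Not at h
      exact ⟨0, Or.inr h⟩
  refine ⟨fun ω l => e (Nat.find (hp l ω)), fun l => ?_, D, ?_, ?_⟩
  · refine (measurable_from_nat (f := e)).comp (measurable_find (hp l) fun k => ?_)
    have : {ω | ω ∈ N l (e k) ∨ ∀ b, ω ∉ N l b} = N l (e k) ∪ ⋂ b, (N l b)ᶜ := by
      ext ω; simp
    rw [this]
    exact (hN l _).1.union (MeasurableSet.iInter fun b => (hN l b).1.compl)
  · refine measure_union_null (measure_iUnion_null h1) ?_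
    refine measure_iUnion_null fun l => measure_iUnion_null fun a => measure_iUnion_null fun a' =>
      measure_iUnion_null fun hne => h2 l a a' hne
  · rintro ω ⟨hω, hωD⟩ l a
    simp only [D, mem_union, mem_iUnion, not_or, not_exists] at hωD
    obtain ⟨hD1, hD2⟩ := hωD
    have h3 : ∃ b, ω ∈ N l b := by
      by_contra hcon
      exact hD1 l ⟨hω, fun h => hcon (mem_iUnion.1 h)⟩
    have h4 : ω ∈ N l (e (Nat.find (hp l ω))) := by
      rcases Nat.find_spec (hp l ω) with h | h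
      · exact h
      · obtain ⟨b, hb⟩ := h3
        exact absurd hb (h b)
    constructor
    · intro h
      by_contra hne
      exact hD2 l _ _ hne ⟨hω, h4, h⟩
    · rintro rfl
      exact h4

end

theorem mem_isFun_const {P : Type} [Preorder P] {A B : Type} (f : A → B) (p : P) :
    p ∈ IsFun (fun a b => ({_p | f a = b} : Set P)) := by
  refine ⟨fun a => mem_fex_of fun q _ => ⟨f a, q, le_rfl, meets_const.2 rfl⟩, fun a b b' => ?_⟩
  refine mem_fimp_of fun q _ h => ?_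
  have h1 := meets_const.1 h.1
  have h2 := meets_const.1 h.2
  exact h1.symm.trans h2

theorem force_sym {J W : Type} [LinearOrder W] (hJ : Infinite J) (hW : ¬ #W ≤ 𝔠)
    (hI : ∀ w : W, #(Iic w) ≤ 𝔠) (p : Pos (cm J)) : p ∈ Sym (Pos (cm J)) W := by
  intro X U
  refine mem_fimp_of fun q _ hq => ?_
  obtain ⟨hq1, hq2⟩ := hq
  choose N hN using fun w l a => rep_meets (X w l a)
  choose V hV using fun k n m v => rep_meets (U k n m v)
  choose x hx D hD hxD using fun w => exists_rv (hN w) (hq1 w)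
  let E : ℕ → (n : ℕ) → (Fin n → W) → Set (J → Bool) := fun k n ξ =>
    ⋃ m : ℕ, ⋃ v : Fin n → Fin m → ℕ, ((⋂ a : Fin n, ⋂ l : Fin m, N (ξ a) l (v a l)) ∩ V k n m v)
  have hE : ∀ k n ξ, Rep (InOpen X U k n ξ) (E k n ξ) := fun k n ξ =>
    rep_fex fun m => rep_fex fun v => rep_fand
      (rep_fall fun a => rep_fall fun l => hN _ _ _) (hV k n m v)
  have key : ∀ k n (ξ : Fin n → W), q ∈ InOpen X U k n ξ ↔
      cm J (q.1 \ {ω | ∃ m, ω ∈ V k n m fun a l => x (ξ a) ω l}) = 0 := by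
    intro k n ξ
    have hnull : cm J (⋃ a, D (ξ a)) = 0 := measure_iUnion_null fun a => hD _
    have h1 : ∀ ω ∈ q.1 \ ⋃ a, D (ξ a),
        (ω ∈ E k n ξ ↔ ω ∈ {ω | ∃ m, ω ∈ V k n m fun a l => x (ξ a) ω l}) := by
      rintro ω ⟨hω, hω'⟩
      have h2 : ∀ a l b, ω ∈ N (ξ a) l b ↔ x (ξ a) ω l = b := fun a l b =>
        hxD (ξ a) ω ⟨hω, fun h => hω' (mem_iUnion.2 ⟨a, h⟩)⟩ l b
      simp only [E, mem_iUnion, mem_inter_iff, mem_iInter, h2, mem_ofPred_eq]
      constructor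
      · rintro ⟨m, v, h3, h4⟩
        have : (fun (a : Fin n) (l : Fin m) => x (ξ a) ω l) = v := by
          funext a l; exact h3 a l
        exact ⟨m, by rw [this]; exact h4⟩
      · rintro ⟨m, h⟩
        exact ⟨m, _, fun _ _ => rfl, h⟩
    rw [(hE k n ξ).2 q]
    constructor
    · intro h
      refine measure_mono_null ?_ (measure_union_null h hnull)
      rintro ω ⟨h3, h4⟩
      by_cases h5 : ω ∈ ⋃ a, D (ξ a)
      · exact Or.inr h5
      · exact Or.inl ⟨h3, fun h6 => h4 ((h1 ω ⟨h3, h5⟩).1 h6)⟩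
    · intro h
      refine measure_mono_null ?_ (measure_union_null h hnull)
      rintro ω ⟨h3, h4⟩
      by_cases h5 : ω ∈ ⋃ a, D (ξ a)
      · exact Or.inr h5
      · exact Or.inl ⟨h3, fun h6 => h4 ((h1 ω ⟨h3, h5⟩).2 h6)⟩
  obtain ⟨i, hi, hi'⟩ := sym_measure hJ hW hI q.2.1 (fun k n m v => (hV k n m v).1)
    (x := x) (fun w => measurable_pi_lambda _ (hx w)) (by
      intro k n ξ hξ
      refine (key k n ξ).1 ?_
      have h1 := ((rep_fimp (rep_fground (StrictMono ξ)) (hE k n ξ)).2 q).1 (hq2 k n ξ)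
      refine ((hE k n ξ).2 q).2 (measure_mono_null ?_ h1)
      rintro ω ⟨h2, h3⟩
      refine ⟨h2, ?_⟩
      rintro (h4 | h4)
      · exact h4 hξ
      · exact h3 h4)
  refine mem_fex_of fun r hr => ⟨fun a w => {_p | i a = w}, r, le_rfl, mem_isFun_const i r, ?_, ?_⟩
  · intro a b w
    refine mem_fimp_of fun s _ h => ?_
    have h1 := meets_const.1 h.1
    have h2 := meets_const.1 h.2
    exact hi.injective (h1.trans h2.symm)
  · intro k n j ξ
    refine mem_fimp_of fun s hs h => ?_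
    have h1 : ξ = fun a => i (j a) := by
      funext a
      exact (meets_const.1 (h.2 a)).symm
    subst h1
    exact rep_down (hE k n _) (hs.trans hr) ((key k n _).2 (hi' k n j h.1))

theorem force_wo {P W : Type} [Preorder P] [LinearOrder W] [WellFoundedLT W] (p : P) :
    p ∈ WO P W := by
  intro S
  refine mem_fimp_of fun q _ hq => mem_fex_of fun r hr => ?_
  have h1 : ∃ w, ∃ s ≤ r, s ∈ meets (S w) := by
    by_contra hcon
    push Not at hcon
    exact hq r hr fun w s hs hs' => hcon w s hs hs'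
  obtain ⟨w, ⟨s, hs, hsw⟩, hmin⟩ := (wellFounded_lt (α := W)).has_min
    {w | ∃ s ≤ r, s ∈ meets (S w)} h1
  refine ⟨w, s, hs, hsw, fun v => mem_fimp_of fun t ht htv => ?_⟩
  by_contra hlt
  exact hmin v ⟨t, ht.trans hs, htv⟩ (not_le.1 hlt)

end Pool.Agent.Helper584.RM
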