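import Pool.Agent.Helper584_RM.Lang
import Pool.Agent.H20R3.Yor.NullCode
import Pool.Agent.R130.Theon.Spaces

set_option autoImplicit false
set_option linter.all false

open Set MeasureTheory
open scoped ENNReal
open Pool.Agent.H20R3.Yor (Cantor coin IsInit Cyl seg minStr exists_minStr tsum_minStr_le coin_Cyl
  self_mem)

namespace Pool.Agent.Helper584.RM

instance : NullSingletonClass coin := by
  constructor
  intro x
  refine le_antisymm (ENNReal.le_of_forall_pos_le_add fun ε hε _ => ?_) bot_le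
  obtain ⟨m, hm⟩ := ENNReal.exists_inv_two_pow_lt (a := (ε : ℝ≥0∞)) (by exact_mod_cast hε.ne')
  rw [zero_add]
  have h1 : coin {x} ≤ coin (Cyl (seg x m)) :=
    measure_mono (by rintro y rfl; exact self_mem _ _)
  rw [coin_Cyl] at h1
  simp only [Pool.Agent.H20R3.Yor.length_seg] at h1
  exact h1.trans hm.le

/-- The covering principle for null subsets of the Cantor space. -/
theorem cov_cantor {W : Type} [LinearOrder W] (hW : Cov₀ W) (α : W)
    (Z : List (Iio α) → Set Cantor) (hZ : ∀ L, coin (Z L) = 0) : ∃ d, ∀ L, d ∉ Z L := by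
  have h1 : ∀ (L : List (Iio α)) (k : ℕ), ∃ U, Z L ⊆ U ∧ IsOpen U ∧ coin U ≤ (2⁻¹ : ℝ≥0∞) ^ k := by
    intro L k
    have h2 : coin (Z L) < (2⁻¹ : ℝ≥0∞) ^ k := by
      rw [hZ]; exact ENNReal.pow_pos (by simp) k
    obtain ⟨U, h3, h4, h5⟩ := (Z L).exists_isOpen_lt_of_lt _ h2
    exact ⟨U, h3, h4, h5.le⟩
  choose U hZU hU hUm using h1
  obtain ⟨d, hd⟩ := hW α (fun L m s => s ∈ minStr (U L m)) (by
    intro L m F hF
    classical
    have h2 : ∑ s ∈ F, (2⁻¹ : ℝ≥0∞) ^ s.length ≤ 2⁻¹ ^ m := by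
      refine le_trans ?_ ((tsum_minStr_le (U L m)).trans (hUm L m))
      refine le_trans (le_of_eq ?_) (ENNReal.sum_le_tsum F)
      refine Finset.sum_congr rfl fun s hs => ?_
      rw [if_pos (hF s hs)]
    have h0 : (2⁻¹ : ℝ≥0∞) = ENNReal.ofReal (2⁻¹ : ℝ) := by
      rw [ENNReal.ofReal_inv_of_pos (by norm_num)]; simp
    have h1 : ∀ n : ℕ, (2⁻¹ : ℝ≥0∞) ^ n = ENNReal.ofReal ((2⁻¹ : ℝ) ^ n) := by
      intro n
      rw [h0, ENNReal.ofReal_pow (by norm_num)]
    simp only [h1] at h2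
    rw [← ENNReal.ofReal_sum_of_nonneg (fun _ _ => by positivity),
      ENNReal.ofReal_le_ofReal_iff (by positivity)] at h2
    rw [← Rat.cast_le (K := ℝ)]
    push_cast
    exact h2)
  refine ⟨d, fun L hdL => ?_⟩
  obtain ⟨m, hm⟩ := hd L
  obtain ⟨s, hs, hds⟩ := exists_minStr (hU L m) (hZU L m hdL)
  obtain ⟨i, hi⟩ := hm s hs
  exact hi (hds i i.2).symm

/-- The covering principle for null subsets of standard probability spaces. -/
theorem cov_std {W : Type} [LinearOrder W] (hW : Cov₀ W) {Y : Type} [MeasurableSpace Y]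
    [StandardBorelSpace Y] (Λ : Measure Y) [IsProbabilityMeasure Λ] (α : W)
    (Z : List (Iio α) → Set Y) (hZ : ∀ L, Λ (Z L) = 0) : ∃ y, ∀ L, y ∉ Z L := by
  obtain ⟨T, hT, hT'⟩ := Pool.Agent.R130.Theon.exists_map_of_noAtoms coin Λ
  obtain ⟨d, hd⟩ := cov_cantor hW α (fun L => T ⁻¹' toMeasurable Λ (Z L)) (by
    intro L
    rw [← Measure.map_apply hT (measurableSet_toMeasurable _ _), hT', measure_toMeasurable, hZ])
  exact ⟨T d, fun L h => hd L (subset_toMeasurable _ _ h)⟩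

/-- A version with a more general index set. -/
theorem cov_std' {W : Type} [LinearOrder W] (hW : Cov₀ W) {Y : Type} [MeasurableSpace Y]
    [StandardBorelSpace Y] (Λ : Measure Y) [IsProbabilityMeasure Λ] (α : W)
    (Z : List Bool → List (Iio α × Bool) → Set Y) (hZ : ∀ s L, Λ (Z s L) = 0) :
    ∃ y, ∀ s L, y ∉ Z s L := by
  obtain ⟨y, hy⟩ := cov_std hW Λ α (fun L => ⋃ s : List Bool, ⋃ b : List Bool, Z s (List.zip L b))
    (fun L => measure_iUnion_null fun s => measure_iUnion_null fun b => hZ _ _)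
  refine ⟨y, fun s L h => hy (L.map Prod.fst) ?_⟩
  refine mem_iUnion.2 ⟨s, mem_iUnion.2 ⟨L.map Prod.snd, ?_⟩⟩
  have key : ∀ L : List (Iio α × Bool), List.zip (L.map Prod.fst) (L.map Prod.snd) = L := by
    intro L
    induction L with
    | nil => rfl
    | cons a L ih => simp [ih]
  rw [key]
  exact h

end Pool.Agent.Helper584.RM
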