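import Pool.Agent.Helper584_RM.MainK

set_option autoImplicit false
set_option linter.all false

open Set MeasureTheory Filter
open scoped ENNReal symmDiff Topology
open Pool.Agent.H20R3.Yor (Cantor Cyl seg measurable_Cyl isClopen_Cyl mem_Cyl_seg self_mem Cyl_seg_anti)
open Pool.Agent.Helper292.SP.DS (rec_choice)

namespace Pool.Agent.Helper584.RM

section

variable {K : Type} [TopologicalSpace K] [CompactSpace K] [T2Space K] [MeasurableSpace K]
  [BorelSpace K] {μ : Measure K} [IsProbabilityMeasure μ]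

/-- `c` is a nonempty clopen set without nonempty lower bound in the algebra generated by `a`. -/
def Cand (G : K → Cantor) {ι : Type} (a : ι → Set K) (c : Set K) : Prop :=
  IsClopen c ∧ c.Nonempty ∧ ∀ s L, (el G a s L).Nonempty → ¬ el G a s L ⊆ c

theorem Cand.mono {G : K → Cantor} {ι ι' : Type} {a : ι → Set K} {a' : ι' → Set K} (g : ι' → ι)
    (hg : ∀ i, a' i = a (g i)) {c : Set K} (h : Cand G a c) : Cand G a' c := by
  refine ⟨h.1, h.2.1, fun s L hne hsub => ?_⟩
  have h1 : el G a s (L.map fun p => (g p.1, p.2)) = el G a' s L := by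
    ext x
    simp only [el, mem_ofPred_eq, List.mem_map, forall_exists_index, and_imp,
      forall_apply_eq_imp_iff₂, hg]
  refine h.2.2 s _ (h1 ▸ hne) ?_
  rw [h1]; exact hsub

variable [μ.IsOpenPosMeasure]

theorem exists_cand {W : Type} [LinearOrder W] (hW : Cov₀ W) [TotallyDisconnectedSpace K]
    (hns : ¬ TopologicalSpace.SeparableSpace K) (α : W) {G : K → Cantor} (hG : Continuous G)
    (hGE : ∀ a, IsClopen a → ∃ E : Set Cantor, MeasurableSet E ∧ μ (a ∆ (G ⁻¹' E)) = 0)
    {a : Iio α → Set K} (ha : ∀ i, IsClopen (a i)) : ∃ c, Cand G a c := by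
  by_contra hcon
  apply hns
  choose E hE hE' using fun i => hGE (a i) (ha i)
  obtain ⟨D, hD, hD'⟩ := exists_dense hW α hG ha hE hE'
  refine ⟨D, hD, ?_⟩
  rw [dense_iff_inter_open]
  intro U hU hUne
  obtain ⟨x, hx⟩ := hUne
  obtain ⟨c, hc, hxc, hcU⟩ := (compact_exists_isClopen_in_isOpen hU hx)
  have h1 : ∃ s L, (el G a s L).Nonempty ∧ el G a s L ⊆ c := by
    by_contra h2
    push Not at h2
    exact hcon ⟨c, hc, ⟨x, hxc⟩, h2⟩
  obtain ⟨s, L, hne, hsub⟩ := h1
  obtain ⟨z, hz, hz'⟩ := hD' s L hne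
  exact ⟨z, hcU (hsub hz'), hz⟩

theorem exists_best {G : K → Cantor} {ι : Type} {a : ι → Set K} (h : ∃ c, Cand G a c) :
    ∃ c, Cand G a c ∧ ∀ c', Cand G a c' → μ c' < 2 * μ c := by
  let m : ℝ≥0∞ := ⨆ c : {c // Cand G a c}, μ c.1
  have hm1 : m ≤ 1 := iSup_le fun c => prob_le_one
  have hm0 : 0 < m := by
    obtain ⟨c, hc⟩ := h
    exact (hc.1.isOpen.measure_pos μ hc.2.1).trans_le (le_iSup (fun c : {c // Cand G a c} => μ c.1)
      ⟨c, hc⟩)
  have h1 : m / 2 < m := ENNReal.half_lt_self hm0.ne' (ne_top_of_le_ne_top ENNReal.one_ne_top hm1)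
  obtain ⟨c, hc⟩ := lt_iSup_iff.1 h1
  refine ⟨c.1, c.2, fun c' hc' => ?_⟩
  have h2 : μ c' ≤ m := le_iSup (fun c : {c // Cand G a c} => μ c.1) ⟨c', hc'⟩
  refine h2.trans_lt ?_
  have h3 : m = 2 * (m / 2) := by
    rw [ENNReal.mul_div_cancel (by norm_num) (by norm_num)]
  rw [h3]
  exact (ENNReal.mul_lt_mul_iff_right (by norm_num) (by norm_num)).2 hc

/-- The recursion. -/
theorem exists_family {W : Type} [LinearOrder W] (hwo : WO₀ W) (hW : Cov₀ W)
    [TotallyDisconnectedSpace K] (hns : ¬ TopologicalSpace.SeparableSpace K) {G : K → Cantor}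
    (hG : Continuous G)
    (hGE : ∀ a, IsClopen a → ∃ E : Set Cantor, MeasurableSet E ∧ μ (a ∆ (G ⁻¹' E)) = 0) :
    ∃ a : W → Set K, (∀ ξ, Cand G (fun η : Iio ξ => a η) (a ξ)) ∧
      ∀ η ξ, η < ξ → μ (a ξ) < 2 * μ (a η) := by
  have hwf : WellFounded ((· < ·) : W → W → Prop) := by
    rw [WellFounded.wellFounded_iff_has_min]
    intro S hS
    obtain ⟨w, hw, hw'⟩ := hwo S hS
    exact ⟨w, hw, fun v hv => not_lt.2 (hw' v hv)⟩
  obtain ⟨a, ha⟩ := rec_choice (β := Set K) hwf
    (fun ξ f c => Cand G (fun η : Iio ξ => f η) c ∧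
      ∀ c', Cand G (fun η : Iio ξ => f η) c' → μ c' < 2 * μ c)
    (by
      intro ξ f g c hfg h
      have : (fun η : Iio ξ => f η) = fun η : Iio ξ => g η := by
        funext η; exact hfg η.1 η.2
      rwa [this] at h)
    (by
      intro ξ f hf
      exact exists_best (exists_cand hW hns ξ hG hGE fun η => (hf η.1 η.2).1.1))
  refine ⟨a, fun ξ => (ha ξ).1, fun η ξ hηξ => ?_⟩
  exact (ha η).2 _ ((ha ξ).1.mono (fun ζ : Iio η => (⟨ζ.1, ζ.2.trans hηξ⟩ : Iio ξ)) fun _ => rfl)

end

/-! ### The relations -/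

section

/-- the part of the list which concerns the first `n - 1` variables -/
def Lr (n : ℕ) (L : List (ℕ × Bool)) : List (Fin n × Bool) :=
  L.filterMap fun p => if h : p.1 + 1 < n then some (⟨p.1, by omega⟩, p.2) else none

theorem mem_Lr {n : ℕ} {L : List (ℕ × Bool)} {p : Fin n × Bool} :
    p ∈ Lr n L ↔ p.1.1 + 1 < n ∧ (p.1.1, p.2) ∈ L := by
  unfold Lr
  rw [List.mem_filterMap]
  constructor
  · rintro ⟨q, hq, hqp⟩
    split_ifs at hqp with h
    · obtain rfl := Option.some.inj hqp
      exact ⟨h, hq⟩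
  · rintro ⟨h1, h2⟩
    exact ⟨_, h2, by rw [dif_pos h1]⟩

variable (lam : Measure Cantor) [IsFiniteMeasure lam]

/-- the open relations -/
def Ok (n : ℕ) : Option (List Bool × List (ℕ × Bool) × ℕ) → Set (Fin n → MeasuredSets lam)
  | none => {E | ∀ (h0 : 0 < n) (h1 : 1 < n), lam (E ⟨1, h1⟩).1 < 2 * lam (E ⟨0, h0⟩).1}
  | some d => {E | ∀ h : 0 < n, lam (EL (fun i => (E i).1) d.1 (Lr n d.2.1)) < (2⁻¹ : ℝ≥0∞) ^ d.2.2 ∨
      0 < lam (EL (fun i => (E i).1) d.1 (Lr n d.2.1 ++ [(⟨n - 1, by omega⟩, false)]))}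

theorem isOpen_Ok (n : ℕ) (d : Option (List Bool × List (ℕ × Bool) × ℕ)) : IsOpen (Ok lam n d) := by
  rcases d with _ | d
  · by_cases h1 : 1 < n
    · have h0 : 0 < n := by omega
      have : Ok lam n none = {E | lam (E ⟨1, h1⟩).1 < 2 * lam (E ⟨0, h0⟩).1} := by
        ext E
        exact ⟨fun h => h h0 h1, fun h _ _ => h⟩
      rw [this]
      refine isOpen_lt ?_ ?_
      · exact MeasuredSets.continuous_measure.comp (continuous_apply _)
      · exact (ENNReal.continuous_const_mul (by norm_num)).comp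
          (MeasuredSets.continuous_measure.comp (continuous_apply _))
    · have : Ok lam n none = univ := by
        ext E
        exact ⟨fun _ => trivial, fun _ _ h => absurd h h1⟩
      rw [this]; exact isOpen_univ
  · by_cases h : 0 < n
    · have : Ok lam n (some d) =
        {E | lam (EL (fun i => (E i).1) d.1 (Lr n d.2.1)) < (2⁻¹ : ℝ≥0∞) ^ d.2.2} ∪
        {E | 0 < lam (EL (fun i => (E i).1) d.1 (Lr n d.2.1 ++ [(⟨n - 1, by omega⟩, false)]))} := by
        ext E
        exact ⟨fun h' => h' h, fun h' _ => h'⟩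
      rw [this]
      refine IsOpen.union ?_ ?_
      · exact isOpen_lt (continuous_measure_mEL n _ _) continuous_const
      · exact isOpen_lt continuous_const (continuous_measure_mEL n _ _)
    · have : Ok lam n (some d) = univ := by
        ext E
        exact ⟨fun _ => trivial, fun _ h' => absurd h' h⟩
      rw [this]; exact isOpen_univ

end

section

variable {K : Type} [TopologicalSpace K] [CompactSpace K] [T2Space K] [MeasurableSpace K]
  [BorelSpace K] {μ : Measure K} [IsProbabilityMeasure μ] [μ.IsOpenPosMeasure]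

theorem nonempty_of_pos {ι : Type} {G : K → Cantor} (hG : Continuous G) {a : ι → Set K}
    {E : ι → Set Cantor} (hE : ∀ i, MeasurableSet (E i)) (haE : ∀ i, μ (a i ∆ (G ⁻¹' E i)) = 0)
    {s : List Bool} {L : List (ι × Bool)} (h : 0 < (μ.map G) (EL E s L)) : (el G a s L).Nonempty := by
  rw [← measure_el hG hE haE] at h
  exact nonempty_of_measure_ne_zero h.ne'

/-- The infinite symmetric subfamily. -/
theorem exists_symm {W : Type} [LinearOrder W] (hwo : WO₀ W) (hW : Cov₀ W) (hS : Sym₀ W)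
    [TotallyDisconnectedSpace K] (hns : ¬ TopologicalSpace.SeparableSpace K) {G : K → Cantor}
    (hG : Continuous G)
    (hGE : ∀ a, IsClopen a → ∃ E : Set Cantor, MeasurableSet E ∧ μ (a ∆ (G ⁻¹' E)) = 0) :
    ∃ a : ℕ → Set K, (∀ n, IsClopen (a n)) ∧ (∀ n, (a n).Nonempty) ∧
      (∀ p q, p ≠ q → μ (a q) < 2 * μ (a p)) ∧
      ∀ (s : List Bool) (L : List (ℕ × Bool)) (l : ℕ), (∀ p ∈ L, p.1 ≠ l) →
        (el G a s L).Nonempty → (el G a s (L ++ [(l, false)])).Nonempty := by
  obtain ⟨a, ha, ha'⟩ := exists_family (μ := μ) hwo hW hns hG hGE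
  choose E hE haE using fun ξ => hGE (a ξ) (ha ξ).1
  let lam : Measure Cantor := μ.map G
  have hlam : IsProbabilityMeasure lam := Measure.isProbabilityMeasure_map hG.measurable.aemeasurable
  let dec : ℕ → Option (List Bool × List (ℕ × Bool) × ℕ) := fun k =>
    (Encodable.decode (α := Option (List Bool × List (ℕ × Bool) × ℕ)) k).getD none
  have hdec : ∀ d, dec (Encodable.encode d) = d := by
    intro d
    simp only [dec, Encodable.encodek, Option.getD_some]
  have hmeas : ∀ ξ, μ (a ξ) = lam (E ξ) := by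
    intro ξ
    have h1 := measure_el (ι := Unit) hG (a := fun _ => a ξ) (E := fun _ => E ξ) (fun _ => hE ξ)
      (fun _ => haE ξ) [] [((), true)]
    have h2 : el G (fun _ : Unit => a ξ) [] [((), true)] = a ξ := by
      ext x
      simp [el, Cyl, Pool.Agent.H20R3.Yor.IsInit]
    have h3 : EL (fun _ : Unit => E ξ) [] [((), true)] = E ξ := by
      ext x
      simp [EL, Cyl, Pool.Agent.H20R3.Yor.IsInit]
    rwa [h2, h3] at h1
  obtain ⟨i, hi, hi'⟩ := sym_metric hS (Y := MeasuredSets lam) (fun ξ => ⟨E ξ, hE ξ⟩)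
    (fun k n => Ok lam n (dec k)) (fun k n => isOpen_Ok lam n _) (by
    intro k n ξ hξ
    rcases hd : dec k with _ | d
    · intro h0 h1
      change lam (E (ξ ⟨1, h1⟩)) < 2 * lam (E (ξ ⟨0, h0⟩))
      rw [← hmeas, ← hmeas]
      exact ha' _ _ (hξ (by simp [Fin.lt_def]))
    · intro hn
      change lam (EL (fun i => E (ξ i)) d.1 (Lr n d.2.1)) < (2⁻¹ : ℝ≥0∞) ^ d.2.2 ∨
        0 < lam (EL (fun i => E (ξ i)) d.1 (Lr n d.2.1 ++ [(⟨n - 1, by omega⟩, false)]))
      by_cases hlt : lam (EL (fun i => E (ξ i)) d.1 (Lr n d.2.1)) < (2⁻¹ : ℝ≥0∞) ^ d.2.2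
      · exact Or.inl hlt
      right
      have hpos : 0 < lam (EL (fun i => E (ξ i)) d.1 (Lr n d.2.1)) :=
        (ENNReal.pow_pos (by simp) _).trans_le (not_lt.1 hlt)
      have hne := nonempty_of_pos (a := fun i => a (ξ i)) hG (fun i => hE _) (fun i => haE _) hpos
      set α : W := ξ ⟨n - 1, by omega⟩ with hα
      -- the same element, in the algebra generated by the sets with indices below `α`
      let L' : List (Iio α × Bool) := d.2.1.filterMap fun p =>
        if h : p.1 + 1 < n then some (⟨ξ ⟨p.1, by omega⟩, by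
          rw [mem_Iio, hα]; exact hξ (by simp only [Fin.lt_def]; omega)⟩, p.2) else none
      have hL' : el G (fun η : Iio α => a η) d.1 L' = el G (fun i => a (ξ i)) d.1 (Lr n d.2.1) := by
        ext x
        refine and_congr Iff.rfl ⟨fun h p hp => ?_, fun h p hp => ?_⟩
        · rw [mem_Lr] at hp
          have h2 := h (⟨ξ p.1, by
            rw [mem_Iio, hα]; exact hξ (by simp only [Fin.lt_def]; omega)⟩, p.2) (by
            simp only [L', List.mem_filterMap]
            exact ⟨_, hp.2, by rw [dif_pos hp.1]⟩)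
          exact h2
        · simp only [L', List.mem_filterMap] at hp
          obtain ⟨q, hq, hqp⟩ := hp
          split_ifs at hqp with h3
          obtain rfl := Option.some.inj hqp
          exact h (⟨q.1, by omega⟩, q.2) (mem_Lr.2 ⟨h3, hq⟩)
      have h4 := (ha α).2.2 d.1 L' (hL' ▸ hne)
      rw [hL', not_subset] at h4
      obtain ⟨x, hx, hxα⟩ := h4
      have h5 : (el G (fun i => a (ξ i)) d.1
          (Lr n d.2.1 ++ [(⟨n - 1, by omega⟩, false)])).Nonempty := by
        refine ⟨x, hx.1, fun p hp => ?_⟩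
        rw [List.mem_append, List.mem_singleton] at hp
        rcases hp with hp | rfl
        · exact hx.2 p hp
        · simpa using hxα
      rw [← measure_el hG (fun i => hE _) (fun i => haE _)]
      exact el_pos hG (fun i => (ha _).1) h5)
  refine ⟨fun n => a (i n), fun n => (ha _).1, fun n => (ha _).2.1, ?_, ?_⟩
  · intro p q hpq
    have h1 := hi' (Encodable.encode (none : Option (List Bool × List (ℕ × Bool) × ℕ))) 2 ![p, q] (by
      intro x y hxy
      fin_cases x <;> fin_cases y <;> simp_all)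
    rw [hdec] at h1
    have h2 := h1 (by norm_num) (by norm_num)
    change lam (E (i q)) < 2 * lam (E (i p)) at h2
    rwa [← hmeas, ← hmeas] at h2
  · intro s L l hL hne
    have hpos : 0 < lam (EL (fun n => E (i n)) s L) := by
      rw [← measure_el (a := fun n => a (i n)) hG (fun n => hE _) (fun n => haE _)]
      exact el_pos hG (fun n => (ha _).1) hne
    obtain ⟨r, hr⟩ := ENNReal.exists_inv_two_pow_lt hpos.ne'
    obtain ⟨M, hM, hMl⟩ : ∃ M, (∀ p ∈ L, p.1 < M) ∧ l < M := by
      refine ⟨(L.map Prod.fst).sum + l + 1, fun p hp => ?_, by omega⟩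
      have := List.single_le_sum (l := L.map Prod.fst) (by simp) p.1 (List.mem_map.2 ⟨p, hp, rfl⟩)
      omega
    have hM0 : 0 < M := by omega
    let sw : Equiv.Perm ℕ := Equiv.swap l (M - 1)
    have hsw : ∀ x, x < M → sw x < M := by
      intro x hx
      simp only [sw, Equiv.swap_apply_def]
      split_ifs <;> omega
    have hsw' : ∀ x, x ≠ l → x < M → sw x + 1 < M := by
      intro x hx hxM
      simp only [sw, Equiv.swap_apply_def]
      split_ifs <;> omega
    have hswsw : ∀ x, sw (sw x) = x := fun x => Equiv.swap_apply_self _ _ _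
    have h1 := hi' (Encodable.encode (some (s, L.map fun p => (sw p.1, p.2), r))) M
      (fun x => sw x.1) (fun x y hxy => Fin.ext (sw.injective hxy))
    rw [hdec] at h1
    have h2 := h1 hM0
    change lam (EL (fun x : Fin M => E (i (sw x.1))) s (Lr M (L.map fun p => (sw p.1, p.2)))) <
        (2⁻¹ : ℝ≥0∞) ^ r ∨
      0 < lam (EL (fun x : Fin M => E (i (sw x.1))) s
        (Lr M (L.map fun p => (sw p.1, p.2)) ++ [(⟨M - 1, by omega⟩, false)])) at h2
    have hmemL : ∀ (p : ℕ × Bool) (hp : p ∈ L), ((⟨sw p.1, hsw _ (hM p hp)⟩ : Fin M), p.2) ∈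
        Lr M (L.map fun p => (sw p.1, p.2)) := by
      intro p hp
      refine mem_Lr.2 ⟨hsw' _ (hL p hp) (hM p hp), List.mem_map.2 ⟨p, hp, rfl⟩⟩
    have hmemL' : ∀ p ∈ Lr M (L.map fun p => (sw p.1, p.2)), (sw p.1.1, p.2) ∈ L := by
      intro p hp
      obtain ⟨_, h4⟩ := mem_Lr.1 hp
      obtain ⟨q, hq, hqp⟩ := List.mem_map.1 h4
      have h5 : sw q.1 = p.1.1 := congrArg Prod.fst hqp
      have h6 : q.2 = p.2 := congrArg Prod.snd hqp
      rw [← h5, hswsw, ← h6]
      exact hq
    have hlast : sw (M - 1) = l := Equiv.swap_apply_right _ _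
    rcases h2 with h2 | h2
    · exfalso
      have h3 : EL (fun x : Fin M => E (i (sw x.1))) s (Lr M (L.map fun p => (sw p.1, p.2))) =
          EL (fun n => E (i n)) s L := by
        ext y
        refine and_congr Iff.rfl ⟨fun h p hp => ?_, fun h p hp => ?_⟩
        · have := h _ (hmemL p hp)
          simp only [hswsw] at this
          exact this
        · exact h _ (hmemL' p hp)
      rw [h3] at h2
      exact absurd (h2.trans hr) (lt_irrefl _)
    · have h3 := nonempty_of_pos (a := fun x : Fin M => a (i (sw x.1))) hG (fun x => hE _)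
        (fun x => haE _) h2
      obtain ⟨x, hx, hx'⟩ := h3
      refine ⟨x, hx, fun p hp => ?_⟩
      rw [List.mem_append, List.mem_singleton] at hp
      rcases hp with hp | rfl
      · have := hx' _ (List.mem_append_left _ (hmemL p hp))
        simp only [hswsw] at this
        exact this
      · have := hx' ((⟨M - 1, by omega⟩ : Fin M), false) (List.mem_append_right _ (by simp))
        simp only [hlast] at this
        exact this

end

end Pool.Agent.Helper584.RM
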