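import Pool.Agent.Helper584_RM.FinK

set_option autoImplicit false
set_option linter.all false

open Set MeasureTheory Filter
open scoped ENNReal symmDiff Topology
open Pool.Agent.H20R3.Yor (Cantor Cyl seg measurable_Cyl isClopen_Cyl mem_Cyl_seg self_mem
  Cyl_seg_anti exists_Cyl)

namespace Pool.Agent.Helper584.RM

theorem perfect_univ : Perfect (univ : Set (ℕ → Bool)) := by
  refine ⟨isClosed_univ, fun x _ => ?_⟩
  rw [accPt_iff_nhds]
  intro U hU
  obtain ⟨V, hVU, hV, hxV⟩ := mem_nhds_iff.1 hU
  obtain ⟨m, hm⟩ := exists_Cyl (x := x) hV hxV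
  refine ⟨Function.update x m (!(x m)), ⟨hVU (hm ?_), mem_univ _⟩, ?_⟩
  · rw [mem_Cyl_seg]
    intro i hi
    rw [Function.update_of_ne (by omega)]
  · intro h
    have := congrFun h m
    rw [Function.update_self] at this
    cases hx : x m <;> simp [hx] at this

/-- The main theorem, in the ordinary sense. -/
theorem separable_of_phi {W : Type} [LinearOrder W] (hW : Phi₀ W) {K : Type} [TopologicalSpace K]
    [CompactSpace K] [T2Space K] [MeasurableSpace K] [BorelSpace K] (μ : Measure K)
    [IsProbabilityMeasure μ] [μ.IsOpenPosMeasure] {f : K → ℕ → Bool} (hf : Continuous f)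
    (hsc : ∀ t : ℕ → Bool, ∀ A : Set K, A ⊆ f ⁻¹' {t} → A.Nonempty →
      ∃ x ∈ A, ∃ U : Set K, IsOpen U ∧ U ∩ A = {x}) : TopologicalSpace.SeparableSpace K := by
  by_contra hns
  have hTD : TotallyDisconnectedSpace K := totallyDisconnected_of hf hsc
  obtain ⟨G, hG, hscG, hGE⟩ := exists_type' (μ := μ) hf hsc
  obtain ⟨a, ha, hane, hpair, hneg⟩ := exists_symm (μ := μ) hW.1 hW.2.2 hW.2.1 hns hG hGE
  -- a point in infinitely many of the sets
  have hx0 : ∃ x0, {q | x0 ∈ a q}.Infinite := by
    let M : ℕ → Set K := fun n => ⋃ q, ⋃ (_ : n < q), a q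
    have hM : Antitone M := by
      intro n n' h x hx
      simp only [M, mem_iUnion] at hx ⊢
      obtain ⟨q, hq, hx⟩ := hx
      exact ⟨q, by omega, hx⟩
    have h0 : 0 < μ (a 0) := (ha 0).isOpen.measure_pos μ (hane 0)
    have h1 : ∀ n, μ (a 0) / 2 ≤ μ (M n) := by
      intro n
      have h2 : μ (a 0) < 2 * μ (a (n + 1)) := hpair (n + 1) 0 (by omega)
      have h3 : a (n + 1) ⊆ M n := fun x hx =>
        mem_iUnion.2 ⟨n + 1, mem_iUnion.2 ⟨Nat.lt_succ_self n, hx⟩⟩
      refine le_trans ?_ (measure_mono h3)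
      rw [ENNReal.div_le_iff (by norm_num) (by norm_num), mul_comm]
      exact h2.le
    have h2 : Tendsto (μ ∘ M) atTop (𝓝 (μ (⋂ n, M n))) :=
      tendsto_measure_iInter_atTop (fun n => (isOpen_iUnion fun q => isOpen_iUnion fun _ =>
        (ha q).isOpen).measurableSet.nullMeasurableSet) hM ⟨0, measure_ne_top _ _⟩
    have h3 : μ (a 0) / 2 ≤ μ (⋂ n, M n) := ge_of_tendsto' h2 h1
    have h4 : μ (⋂ n, M n) ≠ 0 := by
      intro h
      rw [h] at h3
      have := ENNReal.half_pos h0.ne'
      exact absurd h3 (not_le.2 this)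
    obtain ⟨x0, hx0⟩ := nonempty_of_measure_ne_zero h4
    refine ⟨x0, ?_⟩
    rw [Set.infinite_iff_exists_gt]
    intro n
    have := mem_iInter.1 hx0 n
    simp only [M, mem_iUnion] at this
    obtain ⟨q, hq, hx⟩ := this
    exact ⟨q, hx, hq⟩
  obtain ⟨x0, hQ⟩ := hx0
  let e : ℕ → ℕ := fun n => (hQ.natEmbedding _ n).1
  have he : Function.Injective e := fun p q h => (hQ.natEmbedding _).injective (Subtype.ext h)
  have hx0e : ∀ n, x0 ∈ a (e n) := fun n => (hQ.natEmbedding _ n).2
  set t : Cantor := G x0 with ht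
  -- adding negative conditions
  have hadd : ∀ (s : List Bool) (ρ : ℕ → Bool) (P N : List ℕ), x0 ∈ G ⁻¹' Cyl s →
      (∀ n ∈ P, ρ n = true) → N.Nodup → (∀ n ∈ N, ρ n = false) →
      (el G a s (P.map (fun n => (e n, true)) ++ N.map fun n => (e n, false))).Nonempty := by
    intro s ρ P N hs hP
    induction N with
    | nil =>
      intro _ _
      refine ⟨x0, hs, fun p hp => ?_⟩
      simp only [List.map_nil, List.append_nil, List.mem_map] at hp
      obtain ⟨n, _, rfl⟩ := hp
      simpa using hx0e n
    | cons n N ih =>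
      intro hnd hN
      have h1 := ih (List.nodup_cons.1 hnd).2 (fun m hm => hN m (List.mem_cons_of_mem _ hm))
      have h2 := hneg s _ (e n) (by
        intro p hp
        rw [List.mem_append, List.mem_map, List.mem_map] at hp
        rcases hp with ⟨m, hm, rfl⟩ | ⟨m, hm, rfl⟩
        · intro h
          have := he h
          subst this
          have h3 := hP m hm
          rw [hN m (List.mem_cons_self)] at h3
          exact Bool.noConfusion h3
        · intro h
          have := he h
          subst this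
          exact (List.nodup_cons.1 hnd).1 hm) h1
      obtain ⟨x, hx, hx'⟩ := h2
      refine ⟨x, hx, fun p hp => hx' p ?_⟩
      simp only [List.map_cons, List.mem_append, List.mem_cons, List.mem_map,
        List.not_mem_nil, or_false] at hp ⊢
      rcases hp with h | h | h
      · exact Or.inl (Or.inl h)
      · exact Or.inr h
      · exact Or.inl (Or.inr h)
  have hall : ∀ ρ : ℕ → Bool, ∃ x, G x = t ∧ ∀ n, x ∈ a (e n) ↔ ρ n = true := by
    intro ρ
    let T : ℕ → Set K := fun m => {x | G x ∈ Cyl (seg t m) ∧ ∀ n < m, (x ∈ a (e n) ↔ ρ n = true)}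
    have hTcl : ∀ m, IsClosed (T m) := by
      intro m
      have : T m = el G (fun n => a (e n)) (seg t m) ((List.range m).map fun n => (n, ρ n)) := by
        ext x
        simp [T, el]
      rw [this]
      exact (isClopen_el hG (fun n => ha _) _ _).isClosed
    have h1 : (⋂ m, T m).Nonempty := by
      refine IsCompact.nonempty_iInter_of_sequence_nonempty_isCompact_isClosed T ?_ ?_
        (hTcl 0).isCompact hTcl
      · rintro m x ⟨hx, hx'⟩
        exact ⟨Cyl_seg_anti t (Nat.le_succ m) hx, fun n hn => hx' n (by omega)⟩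
      · intro m
        obtain ⟨x, hx, hx'⟩ := hadd (seg t m) ρ ((List.range m).filter fun n => ρ n)
          ((List.range m).filter fun n => !(ρ n)) (self_mem t m)
          (fun n hn => (List.mem_filter.1 hn).2) (List.nodup_range.filter _)
          (fun n hn => by simpa using (List.mem_filter.1 hn).2)
        refine ⟨x, hx, fun n hn => ?_⟩
        by_cases h : ρ n = true
        · have := hx' (e n, true) (List.mem_append_left _ (List.mem_map.2 ⟨n, List.mem_filter.2
            ⟨List.mem_range.2 hn, h⟩, rfl⟩))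
          simp only [h, iff_true] at this ⊢
          exact this
        · have h' : ρ n = false := by simpa using h
          have := hx' (e n, false) (List.mem_append_right _ (List.mem_map.2 ⟨n, List.mem_filter.2
            ⟨List.mem_range.2 hn, by simp [h']⟩, rfl⟩))
          simp only [h'] at this ⊢
          exact this
    obtain ⟨x, hx⟩ := h1
    have h2 : ∀ m, G x ∈ Cyl (seg t m) ∧ ∀ n < m, (x ∈ a (e n) ↔ ρ n = true) :=
      fun m => mem_iInter.1 hx m
    refine ⟨x, ?_, fun n => (h2 (n + 1)).2 n (Nat.lt_succ_self n)⟩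
    funext n
    exact ((mem_Cyl_seg.1 (h2 (n + 1)).1) n (Nat.lt_succ_self n)).symm
  obtain ⟨A, hA, hAne, hA'⟩ := exists_dense_in_itself
    (continuous_chi (b := fun n => a (e n)) fun n => ha _)
    (K₀ := G ⁻¹' {t}) (isClosed_singleton.preimage hG) perfect_univ univ_nonempty (by
    intro ρ _
    obtain ⟨x, hx, hx'⟩ := hall ρ
    refine ⟨x, hx, ?_⟩
    funext n
    rw [Bool.eq_iff_iff, chi_iff, hx'])
  obtain ⟨x, hx, U, hU, hUA⟩ := hscG t A hA hAne
  exact hA' x hx U hU hUA

end Pool.Agent.Helper584.RM
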