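import Pool.Agent.Helper584_RM.TypeK

set_option autoImplicit false
set_option linter.all false

open Set MeasureTheory Filter ProbabilityTheory
open scoped ENNReal symmDiff Topology

namespace Pool.Agent.Helper584.RM

section

variable {K : Type} [TopologicalSpace K] [CompactSpace K] [T2Space K] [MeasurableSpace K]
  [BorelSpace K] {μ : Measure K} [IsProbabilityMeasure μ] {f : K → ℕ → Bool}

/-- the pair of `f` and the map given by the sequence of sets -/
noncomputable def gm (f : K → ℕ → Bool) (b : ℕ → Set K) (x : K) : (ℕ → Bool) × (ℕ → Bool) :=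
  (f x, chi b x)

/-- the set `a` is far from the sigma-algebra generated by `f` and `b` -/
def Far (μ : Measure K) (f : K → ℕ → Bool) (ε : ℝ≥0∞) (b : ℕ → Set K) (a : Set K) : Prop :=
  ∀ E : Set ((ℕ → Bool) × (ℕ → Bool)), MeasurableSet E → ε ≤ μ (a ∆ (gm f b ⁻¹' E))

theorem far_of_ne {b : ℕ → Set K} {a : Set K}
    (h : ∀ E : Set ((ℕ → Bool) × (ℕ → Bool)), MeasurableSet E → μ (a ∆ (gm f b ⁻¹' E)) ≠ 0) :
    ∃ ε, 0 < ε ∧ Far μ f ε b a := by
  by_contra hcon
  push Not at hcon
  have h1 : ∀ n : ℕ, ∃ E : Set ((ℕ → Bool) × (ℕ → Bool)), MeasurableSet E ∧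
      μ (a ∆ (gm f b ⁻¹' E)) ≤ (2⁻¹ : ℝ≥0∞) ^ n := by
    intro n
    have h2 := hcon ((2⁻¹ : ℝ≥0∞) ^ n) (ENNReal.pow_pos (by simp) n)
    unfold Far at h2
    push Not at h2
    obtain ⟨E, hE, h3⟩ := h2
    exact ⟨E, hE, h3.le⟩
  choose E hE hE' using h1
  exact h (limsup E atTop) (MeasurableSet.measurableSet_limsup hE) (limsup_approx hE')

theorem far_uniform
    (H : ∀ b : ℕ → Set K, (∀ n, IsClopen (b n)) → ∃ a, IsClopen a ∧
      ∀ E : Set ((ℕ → Bool) × (ℕ → Bool)), MeasurableSet E → μ (a ∆ (gm f b ⁻¹' E)) ≠ 0) :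
    ∃ ε, 0 < ε ∧ ∀ b : ℕ → Set K, (∀ n, IsClopen (b n)) → ∃ a, IsClopen a ∧ Far μ f ε b a := by
  by_contra hcon
  push Not at hcon
  have h1 : ∀ n : ℕ, ∃ b : ℕ → Set K, (∀ k, IsClopen (b k)) ∧
      ∀ a, IsClopen a → ¬ Far μ f ((2⁻¹ : ℝ≥0∞) ^ n) b a :=
    fun n => hcon _ (ENNReal.pow_pos (by simp) n)
  choose b hb hb' using h1
  obtain ⟨a, ha, ha'⟩ := H (fun k => b k.unpair.1 k.unpair.2) fun k => hb _ _
  obtain ⟨ε, hε, hfar⟩ := far_of_ne ha'
  obtain ⟨n, hn⟩ := ENNReal.exists_inv_two_pow_lt hε.ne'
  have h2 := hb' n a ha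
  unfold Far at h2
  push Not at h2
  obtain ⟨E, hE, hlt⟩ := h2
  have hm : Measurable fun p : (ℕ → Bool) × (ℕ → Bool) => (p.1, fun k => p.2 (Nat.pair n k)) :=
    measurable_fst.prodMk (measurable_pi_lambda _ fun k =>
      (measurable_pi_apply _).comp measurable_snd)
  have h3 := hfar _ (hm hE)
  have h4 : gm f (fun k => b k.unpair.1 k.unpair.2) ⁻¹'
      ((fun p : (ℕ → Bool) × (ℕ → Bool) => (p.1, fun k => p.2 (Nat.pair n k))) ⁻¹' E) =
      gm f (b n) ⁻¹' E := by
    ext x
    have h5 : (fun k => chi (fun k => b k.unpair.1 k.unpair.2) x (Nat.pair n k)) = chi (b n) x := by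
      funext k
      rw [Bool.eq_iff_iff, chi_iff, chi_iff, Nat.unpair_pair]
    simp only [mem_preimage, gm, h5]
  rw [h4] at h3
  exact absurd (h3.trans_lt (hlt.trans hn)) (lt_irrefl _)

/-- The sigma-algebra of the clopen sets is generated, modulo null sets, by `f` and countably many
clopen sets. -/
theorem exists_type (hf : Continuous f)
    (hsc : ∀ t : ℕ → Bool, ∀ A : Set K, A ⊆ f ⁻¹' {t} → A.Nonempty →
      ∃ x ∈ A, ∃ U : Set K, IsOpen U ∧ U ∩ A = {x}) :
    ∃ b : ℕ → Set K, (∀ n, IsClopen (b n)) ∧ ∀ a, IsClopen a →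
      ∃ E : Set ((ℕ → Bool) × (ℕ → Bool)), MeasurableSet E ∧ μ (a ∆ (gm f b ⁻¹' E)) = 0 := by
  by_contra hcon
  push Not at hcon
  obtain ⟨ε, hε, hfar⟩ := far_uniform (μ := μ) (f := f) hcon
  choose! nx hnx hnx' using hfar
  -- the sequence
  let s : ℕ → ℕ → Set K := fun n => Nat.rec (fun _ => ∅) (fun n b => Function.update b n (nx b)) n
  have hs0 : s 0 = fun _ => ∅ := rfl
  have hs1 : ∀ n, s (n + 1) = Function.update (s n) n (nx (s n)) := fun n => rfl
  have hsc' : ∀ n k, IsClopen (s n k) := by
    intro n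
    induction n with
    | zero => intro k; exact isClopen_empty
    | succ n ih =>
      intro k
      rw [hs1]
      by_cases h : k = n
      · subst h; simp only [Function.update_self]; exact hnx _ ih
      · rw [Function.update_of_ne h]; exact ih k
  let a : ℕ → Set K := fun n => nx (s n)
  have ha : ∀ n, IsClopen (a n) := fun n => hnx _ (hsc' n)
  have hsa : ∀ n k, k < n → s n k = a k := by
    intro n
    induction n with
    | zero => intro k hk; omega
    | succ n ih =>
      intro k hk
      rw [hs1]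
      by_cases h : k = n
      · subst h; simp only [Function.update_self]; rfl
      · rw [Function.update_of_ne h]; exact ih k (by omega)
  -- the law
  have hg : Continuous (gm f a) := hf.prodMk (continuous_chi ha)
  let ρ : Measure ((ℕ → Bool) × (ℕ → Bool)) := μ.map (gm f a)
  have hρp : IsProbabilityMeasure ρ := Measure.isProbabilityMeasure_map hg.measurable.aemeasurable
  have hScl : IsClosed (range (gm f a)) := (isCompact_range hg).isClosed
  have hatom : ρ {p | ρ.condKernel p.1 {p.2} = 0} = 0 := by
    refine atomic hScl.measurableSet ?_ ?_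
    · rw [Measure.map_apply hg.measurable hScl.measurableSet.compl]
      have : gm f a ⁻¹' (range (gm f a))ᶜ = ∅ := by
        ext x; simp
      rw [this]; exact measure_empty
    · intro t
      have : PolishSpace (ℕ → Bool) := ⟨⟩
      have h1 := countable_image (continuous_chi ha) (K₀ := f ⁻¹' {t})
        (isClosed_singleton.preimage hf) (fun A hA hne => hsc t A hA hne)
      refine h1.mono ?_
      rintro z ⟨x, hx⟩
      simp only [gm, Prod.mk.injEq] at hx
      exact ⟨x, hx.1, hx.2⟩
  obtain ⟨n, hn⟩ := bad_small ρ.condKernel hatom hε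
  -- the majority set
  let R : (ℕ → Bool) → Set (ℕ → Bool) := fun z => {z' | (∀ i < n, z' i = z i) ∧ z' n = true}
  let En : Set ((ℕ → Bool) × (ℕ → Bool)) :=
    {p | ρ.condKernel p.1 (cy n p.2) < 2 * ρ.condKernel p.1 (R p.2)}
  let tr : (ℕ → Bool) → ℕ → Bool := fun z => Function.update z n true
  have hRtr : ∀ z, R z = cy (n + 1) (tr z) := by
    intro z
    ext z'
    simp only [R, cy, mem_ofPred_eq, tr]
    constructor
    · rintro ⟨h1, h2⟩ i hi
      by_cases h : i = n
      · subst h; simp [h2]
      · rw [Function.update_of_ne h]; exact h1 i (by omega)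
    · intro h
      refine ⟨fun i hi => ?_, ?_⟩
      · have := h i (by omega)
        rwa [Function.update_of_ne (by omega)] at this
      · have := h n (by omega)
        rwa [Function.update_self] at this
  have htr : Measurable tr := by
    refine measurable_pi_lambda _ fun i => ?_
    simp only [tr]
    by_cases h : i = n
    · subst h; simp only [Function.update_self]; exact measurable_const
    · simp only [Function.update_of_ne h]; exact measurable_pi_apply i
  have hEn : MeasurableSet En := by
    refine measurableSet_lt (measurable_c _ n) (Measurable.const_mul ?_ 2)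
    simp only [hRtr]
    exact (measurable_c ρ.condKernel (n + 1)).comp (measurable_fst.prodMk
      (htr.comp measurable_snd))
  have hdep : ∀ x, gm f (s n) x ∈ En ↔ gm f a x ∈ En := by
    intro x
    have h1 : ∀ i < n, chi (s n) x i = chi a x i := by
      intro i hi
      rw [Bool.eq_iff_iff, chi_iff, chi_iff, hsa n i hi]
    have h2 : cy n (chi (s n) x) = cy n (chi a x) := by
      ext z'
      exact forall₂_congr fun i hi => by rw [h1 i hi]
    have h3 : R (chi (s n) x) = R (chi a x) := by
      ext z'
      refine and_congr (forall₂_congr fun i hi => by rw [h1 i hi]) Iff.rfl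
    simp only [En, gm, mem_ofPred_eq, h2, h3]
  have h1 := hnx' (s n) (hsc' n) En hEn
  have h2 : a n ∆ (gm f (s n) ⁻¹' En) ⊆ gm f a ⁻¹' bad ρ.condKernel n := by
    rintro x (⟨hx, hx'⟩ | ⟨hx, hx'⟩)
    · have hx2 : ¬ gm f a x ∈ En := fun h => hx' ((hdep x).2 h)
      have h3 : R (chi a x) = cy (n + 1) (chi a x) := by
        rw [hRtr]
        congr 1
        funext i
        simp only [tr]
        by_cases h : i = n
        · subst h; rw [Function.update_self]; exact (chi_iff.2 hx).symm
        · rw [Function.update_of_ne h]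
      simp only [En, gm, mem_ofPred_eq, h3, not_lt] at hx2
      exact hx2
    · have hx2 : gm f a x ∈ En := (hdep x).1 hx
      have hz : chi a x n = false := by
        rw [Bool.eq_false_iff]
        exact fun h => hx' (chi_iff.1 h)
      have h3 : cy n (chi a x) ⊆ cy (n + 1) (chi a x) ∪ R (chi a x) := by
        intro z' hz'
        by_cases h : z' n = true
        · exact Or.inr ⟨hz', h⟩
        · left
          intro i hi
          by_cases h' : i = n
          · subst h'; rw [hz]; simpa using h
          · exact hz' i (by omega)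
      have h3' : Disjoint (cy (n + 1) (chi a x)) (R (chi a x)) := by
        rw [Set.disjoint_left]
        rintro z' h4 ⟨_, h5⟩
        have := h4 n (by omega)
        rw [hz, h5] at this
        exact Bool.noConfusion this
      have h4 : cy (n + 1) (chi a x) ∪ R (chi a x) ⊆ cy n (chi a x) := by
        rintro z' (h5 | h5)
        · exact cy_anti _ (Nat.le_succ n) h5
        · exact h5.1
      have h5 : ρ.condKernel (f x) (cy n (chi a x)) =
          ρ.condKernel (f x) (cy (n + 1) (chi a x)) + ρ.condKernel (f x) (R (chi a x)) := by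
        rw [← measure_union h3' (by rw [hRtr]; exact measurable_cy _ _)]
        rw [Subset.antisymm h3 h4]
      simp only [En, gm, mem_ofPred_eq, h5, two_mul] at hx2
      have h6 : ρ.condKernel (f x) (cy (n + 1) (chi a x)) < ρ.condKernel (f x) (R (chi a x)) :=
        lt_of_add_lt_add_right hx2
      change 2 * ρ.condKernel (f x) (cy (n + 1) (chi a x)) ≤ ρ.condKernel (f x) (cy n (chi a x))
      rw [h5, two_mul]
      exact add_le_add_right h6.le _
  have h3 : μ (gm f a ⁻¹' bad ρ.condKernel n) = ρ (bad ρ.condKernel n) :=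
    (Measure.map_apply hg.measurable (measurable_bad _ n)).symm
  exact absurd ((h1.trans (measure_mono h2)).trans_lt (h3 ▸ hn)) (lt_irrefl _)

end

end Pool.Agent.Helper584.RM
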