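import Pool.Agent.Helper584_RM.SymY
import Pool.Agent.Helper584_RM.CovY
import Pool.Agent.Helper584_RM.TypeK2
import Pool.Agent.Helper292.SP.Lib

set_option autoImplicit false
set_option linter.all false

open Set MeasureTheory Filter
open scoped ENNReal symmDiff Topology
open Pool.Agent.H20R3.Yor (Cantor Cyl seg measurable_Cyl isClopen_Cyl mem_Cyl_seg self_mem Cyl_seg_anti)
open Pool.Agent.Helper292.SP.DS (rec_choice)

namespace Pool.Agent.Helper584.RM

section

variable {K : Type} [TopologicalSpace K] [CompactSpace K] [T2Space K] [MeasurableSpace K]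
  [BorelSpace K] {μ : Measure K} [IsProbabilityMeasure μ]

/-- a single continuous map to the Cantor space which determines `f` and generates all clopen sets
modulo null sets -/
theorem exists_type' {f : K → ℕ → Bool} (hf : Continuous f)
    (hsc : ∀ t : ℕ → Bool, ∀ A : Set K, A ⊆ f ⁻¹' {t} → A.Nonempty →
      ∃ x ∈ A, ∃ U : Set K, IsOpen U ∧ U ∩ A = {x}) :
    ∃ (G : K → Cantor), Continuous G ∧
      (∀ t : Cantor, ∀ A : Set K, A ⊆ G ⁻¹' {t} → A.Nonempty →
        ∃ x ∈ A, ∃ U : Set K, IsOpen U ∧ U ∩ A = {x}) ∧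
      ∀ a, IsClopen a → ∃ E : Set Cantor, MeasurableSet E ∧ μ (a ∆ (G ⁻¹' E)) = 0 := by
  obtain ⟨b, hb, hb'⟩ := exists_type (μ := μ) hf hsc
  let G : K → Cantor := fun x n => if n % 2 = 0 then f x (n / 2) else chi b x (n / 2)
  have hG0 : ∀ x n, G x (2 * n) = f x n := by
    intro x n
    have h1 : 2 * n % 2 = 0 := by omega
    have h2 : 2 * n / 2 = n := by omega
    simp only [G, h1, h2, if_true]
  have hG1 : ∀ x n, G x (2 * n + 1) = chi b x n := by
    intro x n
    have h1 : ¬ (2 * n + 1) % 2 = 0 := by omega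
    have h2 : (2 * n + 1) / 2 = n := by omega
    simp only [G, h1, h2, if_false]
  have hG : Continuous G := by
    refine continuous_pi fun n => ?_
    simp only [G]
    split_ifs
    · exact (continuous_apply _).comp hf
    · exact (continuous_apply _).comp (continuous_chi hb)
  refine ⟨G, hG, ?_, ?_⟩
  · intro t A hA hne
    refine hsc (fun n => t (2 * n)) A (fun x hx => ?_) hne
    have h1 : G x = t := hA hx
    change f x = _
    funext n
    rw [← hG0, h1]
  · intro a ha
    obtain ⟨E, hE, hE'⟩ := hb' a ha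
    let dec : Cantor → (ℕ → Bool) × (ℕ → Bool) := fun y => (fun n => y (2 * n), fun n => y (2 * n + 1))
    have hdec : Measurable dec := (measurable_pi_lambda _ fun n => measurable_pi_apply _).prodMk
      (measurable_pi_lambda _ fun n => measurable_pi_apply _)
    refine ⟨dec ⁻¹' E, hdec hE, ?_⟩
    have h1 : G ⁻¹' (dec ⁻¹' E) = gm f b ⁻¹' E := by
      ext x
      have : dec (G x) = gm f b x := by
        refine Prod.ext ?_ ?_
        · funext n; exact hG0 x n
        · funext n; exact hG1 x n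
      rw [mem_preimage, mem_preimage, this]; rfl
    rw [h1]
    exact hE'

/-! ### Boolean combinations -/

variable {ι : Type}

/-- a finite Boolean combination of the sets `a i` with the preimage of a basic clopen set -/
def el (G : K → Cantor) (a : ι → Set K) (s : List Bool) (L : List (ι × Bool)) : Set K :=
  {x | G x ∈ Cyl s ∧ ∀ p ∈ L, (x ∈ a p.1 ↔ p.2 = true)}

theorem isClopen_el {G : K → Cantor} (hG : Continuous G) {a : ι → Set K} (ha : ∀ i, IsClopen (a i))
    (s : List Bool) (L : List (ι × Bool)) : IsClopen (el G a s L) := by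
  have : el G a s L = G ⁻¹' Cyl s ∩ ⋂ p ∈ {p | p ∈ L}, {x | x ∈ a p.1 ↔ p.2 = true} := by
    ext y; simp [el]
  rw [this]
  refine ((isClopen_Cyl s).preimage hG).inter ((L.finite_toSet).isClopen_biInter fun p _ => ?_)
  by_cases h : p.2 = true
  · have : {x | x ∈ a p.1 ↔ p.2 = true} = a p.1 := by ext x; simp [h]
    rw [this]; exact ha _
  · have : {x | x ∈ a p.1 ↔ p.2 = true} = (a p.1)ᶜ := by ext x; simp [h]
    rw [this]; exact (ha _).compl

theorem measure_el {G : K → Cantor} (hG : Continuous G) {a : ι → Set K} {E : ι → Set Cantor}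
    (hE : ∀ i, MeasurableSet (E i)) (haE : ∀ i, μ (a i ∆ (G ⁻¹' E i)) = 0)
    (s : List Bool) (L : List (ι × Bool)) : μ (el G a s L) = (μ.map G) (EL E s L) := by
  rw [Measure.map_apply hG.measurable (measurable_EL hE s L)]
  refine measure_congr ?_
  have h1 : ∀ i, ∀ᵐ x ∂μ, (x ∈ a i ↔ G x ∈ E i) := by
    intro i
    have h2 := measure_eq_zero_iff_ae_notMem.1 (haE i)
    filter_upwards [h2] with x hx
    rw [Set.mem_symmDiff, mem_preimage] at hx
    tauto
  have h3 : ∀ᵐ x ∂μ, ∀ p ∈ {p | p ∈ L}, (x ∈ a p.1 ↔ G x ∈ E p.1) :=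
    (ae_ball_iff (L.finite_toSet).countable).2 fun p _ => h1 p.1
  filter_upwards [h3] with x hx
  refine propext ?_
  change (G x ∈ Cyl s ∧ ∀ p ∈ L, (x ∈ a p.1 ↔ p.2 = true)) ↔
    (G x ∈ Cyl s ∧ ∀ p ∈ L, (G x ∈ E p.1 ↔ p.2 = true))
  refine and_congr Iff.rfl (forall₂_congr fun p hp => ?_)
  rw [hx p hp]

variable [μ.IsOpenPosMeasure]

theorem el_pos {G : K → Cantor} (hG : Continuous G) {a : ι → Set K} (ha : ∀ i, IsClopen (a i))
    {s : List Bool} {L : List (ι × Bool)} (h : (el G a s L).Nonempty) : 0 < μ (el G a s L) :=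
  (isClopen_el hG ha s L).isOpen.measure_pos μ h

/-- The points of `K` determined by a point of the Cantor space. -/
theorem exists_point {G : K → Cantor} (hG : Continuous G) {a : ι → Set K}
    (ha : ∀ i, IsClopen (a i)) {E : ι → Set Cantor} {y : Cantor}
    (hy : ∀ s L, y ∈ EL E s L → (el G a s L).Nonempty) :
    ∃ x, G x = y ∧ ∀ i, x ∈ a i ↔ y ∈ E i := by
  classical
  let lst : Finset ι → List (ι × Bool) := fun F => F.toList.map fun i => (i, decide (y ∈ E i))
  let t : ℕ × Finset ι → Set K := fun c => el G a (seg y c.1) (lst c.2)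
  have hmem : ∀ m F x, x ∈ t (m, F) ↔ G x ∈ Cyl (seg y m) ∧ ∀ i ∈ F, (x ∈ a i ↔ y ∈ E i) := by
    intro m F x
    simp only [t, el, lst, mem_ofPred_eq, List.mem_map, Finset.mem_toList, forall_exists_index,
      and_imp, forall_apply_eq_imp_iff₂, decide_eq_true_eq]
  have h1 : (⋂ c, t c).Nonempty := by
    refine IsCompact.nonempty_iInter_of_directed_nonempty_isCompact_isClosed t ?_ ?_ ?_ ?_
    · rintro ⟨m, F⟩ ⟨m', F'⟩
      refine ⟨(max m m', F ∪ F'), ?_, ?_⟩
      · intro x hx
        rw [hmem] at hx ⊢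
        exact ⟨Cyl_seg_anti y (le_max_left m m') hx.1, fun i hi => hx.2 i (Finset.mem_union_left _ hi)⟩
      · intro x hx
        rw [hmem] at hx ⊢
        exact ⟨Cyl_seg_anti y (le_max_right m m') hx.1,
          fun i hi => hx.2 i (Finset.mem_union_right _ hi)⟩
    · rintro ⟨m, F⟩
      refine hy _ _ ⟨self_mem y m, fun p hp => ?_⟩
      simp only [lst, List.mem_map, Finset.mem_toList] at hp
      obtain ⟨i, _, rfl⟩ := hp
      simp
    · exact fun c => (isClopen_el hG ha _ _).isClosed.isCompact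
    · exact fun c => (isClopen_el hG ha _ _).isClosed
  obtain ⟨x, hx⟩ := h1
  have h2 : ∀ m F, G x ∈ Cyl (seg y m) ∧ ∀ i ∈ F, (x ∈ a i ↔ y ∈ E i) := fun m F =>
    (hmem m F x).1 (mem_iInter.1 hx (m, F))
  refine ⟨x, ?_, fun i => (h2 0 {i}).2 i (by simp)⟩
  funext n
  exact ((mem_Cyl_seg.1 (h2 (n + 1) ∅).1) n (Nat.lt_succ_self n)).symm

/-- By the covering principle, countably many points are enough for small algebras. -/
theorem exists_dense {W : Type} [LinearOrder W] (hW : Cov₀ W) (α : W) {G : K → Cantor}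
    (hG : Continuous G) {a : Iio α → Set K} (ha : ∀ i, IsClopen (a i)) {E : Iio α → Set Cantor}
    (hE : ∀ i, MeasurableSet (E i)) (haE : ∀ i, μ (a i ∆ (G ⁻¹' E i)) = 0) :
    ∃ D : Set K, D.Countable ∧ ∀ s L, (el G a s L).Nonempty → (D ∩ el G a s L).Nonempty := by
  classical
  let lam : Measure Cantor := μ.map G
  have hlam : IsProbabilityMeasure lam := Measure.isProbabilityMeasure_map hG.measurable.aemeasurable
  let Lam : Measure (ℕ → Cantor) := Measure.infinitePi fun _ : ℕ => lam
  obtain ⟨y, hy⟩ := cov_std' hW Lam α (fun s L => if (el G a s L).Nonempty then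
    {y | ∀ n, y n ∉ EL E s L} else {y | ∃ n, y n ∈ EL E s L}) (by
    intro s L
    have hm := measurable_EL hE s L
    split_ifs with hne
    · have h1 : 0 < lam (EL E s L) := by
        rw [← measure_el hG hE haE s L]
        exact el_pos hG ha hne
      have h2 : lam (EL E s L)ᶜ < 1 := by
        rw [prob_compl_eq_one_sub hm]
        exact ENNReal.sub_lt_self ENNReal.one_ne_top one_ne_zero h1.ne'
      have h3 : ∀ N : ℕ, Lam {y | ∀ n, y n ∉ EL E s L} ≤ lam (EL E s L)ᶜ ^ N := by
        intro N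
        have h4 : Lam (Set.pi (Finset.range N) fun _ => (EL E s L)ᶜ) = lam (EL E s L)ᶜ ^ N := by
          rw [Measure.infinitePi_pi _ (fun _ _ => hm.compl)]
          simp
        rw [← h4]
        exact measure_mono fun y hy n _ => hy n
      exact le_antisymm (ge_of_tendsto'
        (ENNReal.tendsto_pow_atTop_nhds_zero_of_lt_one h2) h3) bot_le
    · have h1 : lam (EL E s L) = 0 := by
        rw [← measure_el hG hE haE s L, not_nonempty_iff_eq_empty.1 hne]
        exact measure_empty
      have h2 : {y : ℕ → Cantor | ∃ n, y n ∈ EL E s L} = ⋃ n, (fun y => y n) ⁻¹' EL E s L := by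
        ext y; simp
      rw [h2]
      refine measure_iUnion_null fun n => ?_
      rw [← Measure.map_apply (measurable_pi_apply n) hm, Measure.infinitePi_map_eval]
      exact h1)
  have h1 : ∀ n, ∃ x, G x = y n ∧ ∀ i, x ∈ a i ↔ y n ∈ E i := by
    intro n
    refine exists_point hG ha fun s L h => ?_
    by_contra hne
    have := hy s L
    rw [if_neg hne] at this
    exact this ⟨n, h⟩
  choose x hx hx' using h1
  refine ⟨range x, countable_range x, fun s L hne => ?_⟩
  have := hy s L
  rw [if_pos hne] at this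
  simp only [mem_ofPred_eq, not_forall, not_not] at this
  obtain ⟨n, hn⟩ := this
  refine ⟨x n, ⟨n, rfl⟩, ?_, fun p hp => ?_⟩
  · rw [hx]; exact hn.1
  · rw [hx']; exact hn.2 p hp

end

end Pool.Agent.Helper584.RM
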