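import Mathlib

set_option autoImplicit false
set_option linter.all false

open Set Topology

namespace Pool.Agent.Helper584.RM

/-- A closed subset of a compact space which is mapped onto a perfect set has a nonempty subset
without isolated points. -/
theorem exists_dense_in_itself {K Y : Type} [TopologicalSpace K] [CompactSpace K] [T2Space K]
    [TopologicalSpace Y] [T2Space Y] {φ : K → Y} (hφ : Continuous φ) {K₀ : Set K}
    (hK₀ : IsClosed K₀) {D : Set Y} (hD : Perfect D) (hDne : D.Nonempty) (hsub : D ⊆ φ '' K₀) :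
    ∃ A ⊆ K₀, A.Nonempty ∧ ∀ x ∈ A, ∀ U, IsOpen U → U ∩ A ≠ {x} := by
  obtain ⟨A, hA⟩ := zorn_superset_nonempty {A : Set K | IsClosed A ∧ A ⊆ K₀ ∧ D ⊆ φ '' A} (by
    intro c hc hchain hne
    refine ⟨⋂₀ c, ⟨isClosed_sInter fun A hA => (hc hA).1, ?_, ?_⟩, fun A hA => sInter_subset_of_mem hA⟩
    · obtain ⟨A, hA⟩ := hne
      exact (sInter_subset_of_mem hA).trans (hc hA).2.1
    · intro y hy
      have h1 : (⋂₀ ((fun A => A ∩ φ ⁻¹' {y}) '' c)).Nonempty := by
        have := (hne.image fun A => A ∩ φ ⁻¹' {y}).to_subtype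
        refine IsCompact.nonempty_sInter_of_directed_nonempty_isCompact_isClosed ?_ ?_ ?_ ?_
        · rintro _ ⟨A, hA, rfl⟩ _ ⟨B, hB, rfl⟩
          rcases hchain.total hA hB with h | h
          · exact ⟨_, ⟨A, hA, rfl⟩, subset_rfl, inter_subset_inter_left _ h⟩
          · exact ⟨_, ⟨B, hB, rfl⟩, inter_subset_inter_left _ h, subset_rfl⟩
        · rintro _ ⟨A, hA, rfl⟩
          obtain ⟨x, hx, hxy⟩ := (hc hA).2.2 hy
          exact ⟨x, hx, hxy⟩
        · rintro _ ⟨A, hA, rfl⟩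
          exact ((hc hA).1.inter (isClosed_singleton.preimage hφ)).isCompact
        · rintro _ ⟨A, hA, rfl⟩
          exact (hc hA).1.inter (isClosed_singleton.preimage hφ)
      obtain ⟨x, hx⟩ := h1
      obtain ⟨A, hA⟩ := hne
      refine ⟨x, fun B hB => (hx _ ⟨B, hB, rfl⟩).1, (hx _ ⟨A, hA, rfl⟩).2⟩)
    K₀ ⟨hK₀, subset_rfl, hsub⟩
  obtain ⟨hAK, hA⟩ := hA
  refine ⟨A, hAK, ?_, ?_⟩
  · obtain ⟨y, hy⟩ := hDne
    obtain ⟨x, hx, _⟩ := hA.prop.2.2 hy
    exact ⟨x, hx⟩
  · intro x hx U hU hUA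
    have hxU : x ∈ U := by
      have : x ∈ U ∩ A := by rw [hUA]; rfl
      exact this.1
    have hcl : IsClosed (A \ U) := hA.prop.1.sdiff hU
    have h1 : D ⊆ φ '' (A \ U) := by
      have h2 : IsClosed (φ '' (A \ U)) := (hcl.isCompact.image hφ).isClosed
      have h3 : ∀ y ∈ D, y ≠ φ x → y ∈ φ '' (A \ U) := by
        intro y hy hne
        obtain ⟨a, ha, rfl⟩ := hA.prop.2.2 hy
        refine ⟨a, ⟨ha, fun haU => ?_⟩, rfl⟩
        have : a ∈ U ∩ A := ⟨haU, ha⟩
        rw [hUA] at this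
        exact hne (by rw [this])
      intro y hy
      by_cases hne : y = φ x
      · rw [← h2.closure_eq]
        have h4 := hD.acc y hy
        rw [accPt_iff_nhds] at h4
        refine mem_closure_iff_nhds.2 fun V hV => ?_
        obtain ⟨z, hz, hzy⟩ := h4 V hV
        exact ⟨z, hz.1, h3 z hz.2 (hne ▸ hzy)⟩
      · exact h3 y hy hne
    have h5 := hA.le_of_le ⟨hcl, sdiff_subset.trans hA.prop.2.1, h1⟩ sdiff_subset
    exact (h5 hx).2 hxU

/-- The continuous image of a scattered compact set in a Polish space is countable. -/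
theorem countable_image {K Y : Type} [TopologicalSpace K] [CompactSpace K] [T2Space K]
    [TopologicalSpace Y] [PolishSpace Y] {φ : K → Y} (hφ : Continuous φ) {K₀ : Set K}
    (hK₀ : IsClosed K₀)
    (hsc : ∀ A ⊆ K₀, A.Nonempty → ∃ x ∈ A, ∃ U, IsOpen U ∧ U ∩ A = {x}) :
    (φ '' K₀).Countable := by
  by_contra hcon
  obtain ⟨D, hD, hDne, hDsub⟩ := exists_perfect_nonempty_of_isClosed_of_not_countable
    (hK₀.isCompact.image hφ).isClosed hcon
  obtain ⟨A, hA, hAne, hA'⟩ := exists_dense_in_itself hφ hK₀ hD hDne hDsub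
  obtain ⟨x, hx, U, hU, hUA⟩ := hsc A hA hAne
  exact hA' x hx U hU hUA

/-- A space with a continuous map to a totally disconnected space with scattered fibres is totally
disconnected. -/
theorem totallyDisconnected_of {K : Type} [TopologicalSpace K] [T2Space K] {f : K → ℕ → Bool}
    (hf : Continuous f)
    (hsc : ∀ t : ℕ → Bool, ∀ A : Set K, A ⊆ f ⁻¹' {t} → A.Nonempty →
      ∃ x ∈ A, ∃ U : Set K, IsOpen U ∧ U ∩ A = {x}) : TotallyDisconnectedSpace K := by
  refine ⟨fun s _ hs => ?_⟩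
  rcases s.eq_empty_or_nonempty with rfl | hne
  · exact subsingleton_empty
  have h1 : (f '' s).Subsingleton := (hs.image f hf.continuousOn).subsingleton
  obtain ⟨x0, hx0⟩ := hne
  obtain ⟨x, hx, U, hU, hUs⟩ := hsc (f x0) s (fun y hy => h1 ⟨y, hy, rfl⟩ ⟨x0, hx0, rfl⟩) ⟨x0, hx0⟩
  have h2 : s ⊆ {x} := by
    by_contra hcon
    rw [not_subset] at hcon
    obtain ⟨y, hy, hyx⟩ := hcon
    have hxU : x ∈ U := by
      have : x ∈ U ∩ s := by rw [hUs]; rfl
      exact this.1
    obtain ⟨z, hz, hzU, hzx⟩ := hs U {x}ᶜ hU isOpen_compl_singleton (by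
      intro z hz
      by_cases h : z = x
      · left; rw [h]; exact hxU
      · right; exact h) ⟨x, hx, hxU⟩ ⟨y, hy, hyx⟩
    have : z ∈ U ∩ s := ⟨hzU, hz⟩
    rw [hUs] at this
    exact hzx this
  exact (subsingleton_singleton).anti h2

end Pool.Agent.Helper584.RM
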