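import Pool.Agent.Helper584_RM.Lang
import Pool.Agent.Helper292.SP.Lib

set_option autoImplicit false

open Set MeasureTheory Cardinal

namespace Pool.Agent.Helper584.RM

/-! ### Measurable sets of the product of fair coins -/

/-- The product of fair coins indexed by `J`. -/
noncomputable def cm (J : Type) : Measure (J → Bool) :=
  Measure.infinitePi fun _ : J => (PMF.uniformOfFintype Bool).toMeasure

instance (J : Type) : IsProbabilityMeasure (cm J) := by unfold cm; infer_instance

theorem cm_map {α J : Type} {g : α → J} (hg : Function.Injective g) :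
    (cm J).map (fun ω i => ω (g i)) = cm α :=
  Measure.map_infinitePi_infinitePi_of_inj (P := fun _ : J => (PMF.uniformOfFintype Bool).toMeasure)
    hg

theorem measurable_comp {α J : Type} (g : α → J) :
    Measurable fun (ω : J → Bool) (i : α) => ω (g i) :=
  measurable_pi_lambda _ fun i => measurable_pi_apply (g i)

theorem cm_preimage {α J : Type} {g : α → J} (hg : Function.Injective g) {B : Set (α → Bool)}
    (hB : MeasurableSet B) : cm J ((fun (ω : J → Bool) (i : α) => ω (g i)) ⁻¹' B) = cm α B := by
  rw [← cm_map hg, Measure.map_apply (measurable_comp g) hB]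

/-- The set `A` depends only on the coordinates in `S`. -/
def Dep {J : Type} (A : Set (J → Bool)) (S : Set J) : Prop :=
  ∀ ω ω' : J → Bool, (∀ s ∈ S, ω s = ω' s) → ω ∈ A → ω' ∈ A

theorem Dep.mono {J : Type} {A : Set (J → Bool)} {S S' : Set J} (h : Dep A S) (hS : S ⊆ S') :
    Dep A S' := fun ω ω' h' => h ω ω' fun s hs => h' s (hS hs)

theorem Dep.iff {J : Type} {A : Set (J → Bool)} {S : Set J} (h : Dep A S) {ω ω' : J → Bool}
    (h' : ∀ s ∈ S, ω s = ω' s) : ω ∈ A ↔ ω' ∈ A :=
  ⟨h ω ω' h', h ω' ω fun s hs => (h' s hs).symm⟩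

theorem exists_dep {J : Type} {A : Set (J → Bool)} (hA : MeasurableSet A) :
    ∃ S : Set J, S.Countable ∧ Dep A S := by
  let M' : MeasurableSpace (J → Bool) :=
    { MeasurableSet' := fun A => ∃ S : Set J, S.Countable ∧ Dep A S
      measurableSet_empty := ⟨∅, countable_empty, fun _ _ _ h => h⟩
      measurableSet_compl := by
        rintro A ⟨S, hS, h⟩
        exact ⟨S, hS, fun ω ω' h' hω hω' => hω ((h.iff h').2 hω')⟩
      measurableSet_iUnion := by
        intro f hf
        choose S hS hS' using hf
        refine ⟨⋃ n, S n, countable_iUnion hS, fun ω ω' h' hω => ?_⟩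
        obtain ⟨n, hn⟩ := mem_iUnion.1 hω
        exact mem_iUnion.2 ⟨n, hS' n ω ω' (fun s hs => h' s (mem_iUnion.2 ⟨n, hs⟩)) hn⟩ }
  have h : (MeasurableSpace.pi : MeasurableSpace (J → Bool)) ≤ M' := by
    refine iSup_le fun j => ?_
    rintro _ ⟨B, _, rfl⟩
    refine ⟨{j}, countable_singleton j, fun ω ω' h' hω => ?_⟩
    have := h' j rfl
    change ω' j ∈ B
    rw [← this]
    exact hω
  exact h A hA

/-- a point with prescribed coordinates in the range of `g` -/
noncomputable def ext {α J : Type} (g : α → J) (y : α → Bool) : J → Bool := by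
  classical
  exact fun j => if h : ∃ a, g a = j then y h.choose else false

theorem ext_apply {α J : Type} {g : α → J} (hg : Function.Injective g) (y : α → Bool) (a : α) :
    ext g y (g a) = y a := by
  classical
  have h : ∃ b, g b = g a := ⟨a, rfl⟩
  unfold ext
  simp only [dif_pos h]
  exact congrArg y (hg h.choose_spec)

theorem measurable_ext {α J : Type} (g : α → J) : Measurable (ext g) := by
  classical
  refine measurable_pi_lambda _ fun j => ?_
  unfold ext
  by_cases h : ∃ a, g a = j
  · simp only [dif_pos h]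
    exact measurable_pi_apply _
  · simp only [dif_neg h]
    exact measurable_const

theorem ext_agree {α J : Type} {g : α → J} (hg : Function.Injective g) (ω : J → Bool) :
    ∀ s ∈ range g, ω s = ext g (fun i => ω (g i)) s := by
  rintro _ ⟨a, rfl⟩
  rw [ext_apply hg]

/-! ### Random variables with values in the Baire space -/

theorem exists_factor {J : Type} {x : (J → Bool) → ℕ → ℕ} (hx : Measurable x)
    (hJ : Infinite J) : ∃ (e : ℕ → J) (F : (ℕ → Bool) → ℕ → ℕ), Function.Injective e ∧
      Measurable F ∧ ∀ ω, x ω = F fun m => ω (e m) := by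
  have h1 : ∀ l a : ℕ, MeasurableSet {ω : J → Bool | x ω l = a} := fun l a =>
    (measurable_pi_iff.1 hx l) (measurableSet_singleton a)
  choose S hS hS' using fun l a => exists_dep (h1 l a)
  obtain ⟨f, hf⟩ : ∃ f : ℕ → J, Function.Injective f := ⟨_, (Infinite.natEmbedding J).injective⟩
  let T : Set J := (⋃ l, ⋃ a, S l a) ∪ range f
  have hT : T.Countable :=
    (countable_iUnion fun l => countable_iUnion fun a => hS l a).union (countable_range f)
  have hTi : T.Infinite := (infinite_range_of_injective hf).mono subset_union_right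
  have : Countable T := hT.to_subtype
  have : Infinite T := hTi.to_subtype
  obtain ⟨e⟩ : Nonempty (ℕ ≃ T) := nonempty_equiv_of_countable
  let g : ℕ → J := fun m => (e m).1
  have hg : Function.Injective g := fun a b h => e.injective (Subtype.ext h)
  have hgr : range g = T := by
    ext t
    constructor
    · rintro ⟨m, rfl⟩; exact (e m).2
    · intro ht; exact ⟨e.symm ⟨t, ht⟩, by simp [g]⟩
  refine ⟨g, fun y => x (ext g y), hg, hx.comp (measurable_ext g), fun ω => ?_⟩
  funext l
  have h2 : ω ∈ {ω : J → Bool | x ω l = x ω l} := rfl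
  have h3 := (hS' l (x ω l) ω (ext g fun m => ω (g m)) ?_ rfl)
  · exact h3.symm
  · intro s hs
    exact ext_agree hg ω s (hgr ▸ Or.inl (mem_iUnion.2 ⟨l, mem_iUnion.2 ⟨_, hs⟩⟩))

theorem card_measurableSet : #{s : Set (ℕ → Bool) // MeasurableSet s} ≤ 𝔠 := by
  obtain ⟨b, hb, hb'⟩ := (inferInstance : MeasurableSpace.CountablyGenerated (ℕ → Bool)).1
  have h := MeasurableSpace.cardinal_measurableSet_le_continuum (s := b)
    ((Cardinal.mk_le_aleph0_iff.2 hb.to_subtype).trans aleph0_le_continuum)
  rw [← hb'] at h
  exact h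

theorem card_measurable_fun : #{F : (ℕ → Bool) → ℕ → ℕ // Measurable F} ≤ 𝔠 := by
  let Φ : {F : (ℕ → Bool) → ℕ → ℕ // Measurable F} →
      (ℕ × ℕ → {s : Set (ℕ → Bool) // MeasurableSet s}) := fun F p =>
    ⟨{y | F.1 y p.1 = p.2}, (measurable_pi_iff.1 F.2 p.1) (measurableSet_singleton p.2)⟩
  have hΦ : Function.Injective Φ := by
    intro F G h
    apply Subtype.ext
    funext y l
    have h1 := congrFun h (l, F.1 y l)
    have h3 : y ∈ {z | G.1 z l = F.1 y l} := by
      have := congrArg Subtype.val h1
      change {z | F.1 z l = F.1 y l} = {z | G.1 z l = F.1 y l} at this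
      rw [← this]; rfl
    exact h3.symm
  refine (mk_le_of_injective hΦ).trans ?_
  rw [← Cardinal.power_def]
  refine (Cardinal.power_le_power_right card_measurableSet).trans ?_
  rw [mk_eq_aleph0 (ℕ × ℕ), continuum_power_aleph0]

end Pool.Agent.Helper584.RM
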