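import Pool.Agent.Helper584_RM.Supp

set_option autoImplicit false
set_option linter.all false

open Set MeasureTheory Cardinal
open Pool.Agent.Helper292.SP (delta_sys pigeon)

namespace Pool.Agent.Helper584.RM

theorem countable_le_c {R : Type} [Countable R] : #R ≤ 𝔠 :=
  (Cardinal.mk_le_aleph0).trans aleph0_le_continuum

theorem exists_two {W : Type} {T : Set W} (hT : ¬ #T ≤ 𝔠) : ∃ a ∈ T, ∃ b ∈ T, a ≠ b := by
  by_contra hcon
  push Not at hcon
  apply hT
  have : T.Subsingleton := fun a ha b hb => hcon a ha b hb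
  have h := this.coe_sort
  exact countable_le_c

/-- A large subset of a well-ordered set with small initial segments contains an increasing
sequence. -/
theorem exists_seq {W : Type} [LinearOrder W] (hI : ∀ w : W, #(Iic w) ≤ 𝔠) {T : Set W}
    (hT : ¬ #T ≤ 𝔠) : ∃ i : ℕ → W, StrictMono i ∧ ∀ n, i n ∈ T := by
  have h1 : ∀ w : W, ∃ w' ∈ T, w < w' := by
    intro w
    by_contra hcon
    push Not at hcon
    exact hT ((Cardinal.mk_le_mk_of_subset (fun v hv => hcon v hv)).trans (hI w))
  obtain ⟨a, ha, _⟩ := exists_two hT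
  choose f hf hf' using h1
  refine ⟨fun n => Nat.rec a (fun _ w => f w) n, strictMono_nat_of_lt_succ fun n => hf' _, ?_⟩
  intro n
  cases n with
  | zero => exact ha
  | succ n => exact hf _

theorem sym_measure {J W : Type} [LinearOrder W] (hJ : Infinite J) (hW : ¬ #W ≤ 𝔠)
    (hI : ∀ w : W, #(Iic w) ≤ 𝔠) {q : Set (J → Bool)} (hq : MeasurableSet q)
    {V : ℕ → (n m : ℕ) → (Fin n → Fin m → ℕ) → Set (J → Bool)}
    (hV : ∀ k n m v, MeasurableSet (V k n m v))
    {x : W → (J → Bool) → ℕ → ℕ} (hx : ∀ w, Measurable (x w))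
    (hyp : ∀ (k n : ℕ) (ξ : Fin n → W), StrictMono ξ →
      cm J (q \ {ω | ∃ m, ω ∈ V k n m fun a l => x (ξ a) ω l}) = 0) :
    ∃ i : ℕ → W, StrictMono i ∧ ∀ (k n : ℕ) (j : Fin n → ℕ), Function.Injective j →
      cm J (q \ {ω | ∃ m, ω ∈ V k n m fun a l => x (i (j a)) ω l}) = 0 := by
  classical
  -- the support of the data
  obtain ⟨Sq, hSq, hSq'⟩ := exists_dep hq
  choose S hS hS' using fun k n m v => exists_dep (hV k n m v)
  let S0 : Set J := Sq ∪ ⋃ k, ⋃ n, ⋃ m, ⋃ v, S k n m v
  have hS0 : S0.Countable := hSq.union (countable_iUnion fun k => countable_iUnion fun n =>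
    countable_iUnion fun m => countable_iUnion fun v => hS k n m v)
  choose e F he hF hxF using fun w => exists_factor (hx w) hJ
  -- the delta system
  have hsucc : Order.succ ℵ₀ = (ℵ₁ : Cardinal.{0}) := by
    rw [← Cardinal.aleph_zero, ← Cardinal.aleph_succ]; congr 1; simp
  obtain ⟨T1, R, -, hT1, hR⟩ := delta_sys (E := W) (K := J) (χ := 𝔠) (σ := ℵ₁)
    aleph0_le_continuum aleph_one_le_continuum (by
      intro τ hτ
      rw [← hsucc, Order.lt_succ_iff] at hτ
      exact (Cardinal.power_le_power_left continuum_ne_zero hτ).trans continuum_power_aleph0.le)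
    univ (by rwa [Cardinal.mk_univ]) (fun w => range (e w) ∪ S0) (by
      intro w
      rw [← hsucc, Order.lt_succ_iff]
      exact Cardinal.mk_le_aleph0_iff.2 ((countable_range _).union hS0).to_subtype)
  obtain ⟨a0, ha0, b0, hb0, hab0⟩ := exists_two hT1
  have hRc : R.Countable := by
    rw [← hR a0 ha0 b0 hb0 hab0]
    exact (((countable_range _).union hS0)).mono inter_subset_left
  have hS0R : S0 ⊆ R := by
    rw [← hR a0 ha0 b0 hb0 hab0]
    exact fun s hs => ⟨Or.inr hs, Or.inr hs⟩
  have : Countable R := hRc.to_subtype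
  let pat : W → ℕ → Option R := fun w m => if h : e w m ∈ R then some ⟨e w m, h⟩ else none
  have hcard : #((ℕ → Option R) × {F : (ℕ → Bool) → ℕ → ℕ // Measurable F}) ≤ 𝔠 := by
    rw [Cardinal.mk_prod, Cardinal.lift_id, Cardinal.lift_id]
    refine (mul_le_mul' ?_ card_measurable_fun).trans (continuum_mul_self).le
    rw [← Cardinal.power_def, Cardinal.mk_nat]
    refine (Cardinal.power_le_power_right (countable_le_c (R := Option R))).trans ?_
    rw [continuum_power_aleph0]
  obtain ⟨T2, ⟨p0, F0⟩, hT21, hT2, hpF⟩ := pigeon aleph0_le_continuum T1 hT1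
    (fun w => ((pat w, ⟨F w, hF w⟩) : (ℕ → Option R) × {F : (ℕ → Bool) → ℕ → ℕ // Measurable F}))
    hcard
  have hp : ∀ w ∈ T2, pat w = p0 := fun w hw => (Prod.ext_iff.1 (hpF w hw)).1
  have hFF : ∀ w ∈ T2, F w = F0.1 := fun w hw => congrArg Subtype.val (Prod.ext_iff.1 (hpF w hw)).2
  obtain ⟨i, hi, hiT⟩ := exists_seq hI hT2
  have hsome : ∀ w ∈ T2, ∀ m r, p0 m = some r → e w m = r.1 := by
    intro w hw m r hm
    rw [← hp w hw] at hm
    simp only [pat] at hm
    split_ifs at hm with h
    · exact congrArg Subtype.val (Option.some.inj hm)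
  have hnone : ∀ w ∈ T2, ∀ m, p0 m = none → e w m ∉ R := by
    intro w hw m hm
    rw [← hp w hw] at hm
    simp only [pat] at hm
    split_ifs at hm with h
    exact h
  refine ⟨i, hi, fun k n => ?_⟩
  let N : Type := {m // p0 m = none}
  let g : (Fin n → ℕ) → R ⊕ (Fin n × N) → J := fun j => Sum.elim Subtype.val
    (fun c => e (i (j c.1)) c.2.1)
  have hg : ∀ j : Fin n → ℕ, Function.Injective j → Function.Injective (g j) := by
    intro j hj
    have h1 : ∀ (r : R) (c : Fin n × N), (r.1 : J) ≠ e (i (j c.1)) c.2.1 := by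
      intro r c h
      exact hnone _ (hiT _) _ c.2.2 (h ▸ r.2)
    rintro (r | c) (r' | c') h
    · exact congrArg Sum.inl (Subtype.ext h)
    · exact absurd h (h1 r c')
    · exact absurd h.symm (h1 r' c)
    · change e (i (j c.1)) c.2.1 = e (i (j c'.1)) c'.2.1 at h
      by_cases hc : c.1 = c'.1
      · rw [hc] at h
        have := he _ h
        exact congrArg Sum.inr (Prod.ext hc (Subtype.ext this))
      · exfalso
        have h2 : i (j c.1) ≠ i (j c'.1) := fun h3 => hc (hj (hi.injective h3))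
        refine hnone _ (hiT (j c.1)) _ c.2.2 ?_
        have h3 := hR _ (hT21 (hiT (j c.1))) _ (hT21 (hiT (j c'.1))) h2
        exact h3.subset ⟨Or.inl ⟨_, rfl⟩, Or.inl ⟨c'.2.1, h.symm⟩⟩
  -- the coordinates in the form independent of `j`
  let z : (R ⊕ (Fin n × N) → Bool) → Fin n → ℕ → Bool := fun y a m =>
    if h : p0 m = none then y (Sum.inr (a, ⟨m, h⟩)) else
      y (Sum.inl ((p0 m).get (Option.ne_none_iff_isSome.1 h)))
  have hz : ∀ (j : Fin n → ℕ) (ω : J → Bool) (a : Fin n),
      z (fun c => ω (g j c)) a = fun m => ω (e (i (j a)) m) := by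
    intro j ω a
    funext m
    simp only [z]
    split_ifs with h
    · rfl
    · have h2 : p0 m = some ((p0 m).get (Option.ne_none_iff_isSome.1 h)) := by simp
      rw [hsome _ (hiT (j a)) m _ h2]
      rfl
  have hzm : Measurable z := by
    refine measurable_pi_lambda _ fun a => measurable_pi_lambda _ fun m => ?_
    simp only [z]
    split_ifs with h
    · exact measurable_pi_apply _
    · exact measurable_pi_apply _
  let E : (R ⊕ (Fin n × N) → Bool) → J → Bool := fun y => ext (Subtype.val : R → J)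
    (fun r => y (Sum.inl r))
  have hEm : Measurable E := (measurable_ext _).comp (measurable_comp _)
  have hE : ∀ (j : Fin n → ℕ) (ω : J → Bool), ∀ s ∈ R, E (fun c => ω (g j c)) s = ω s := by
    intro j ω s hs
    have := ext_agree (g := (Subtype.val : R → J)) Subtype.val_injective ω s (by simpa using hs)
    exact this.symm
  let B : Set (R ⊕ (Fin n × N) → Bool) :=
    E ⁻¹' q \ {y | ∃ m, E y ∈ V k n m fun a l => F0.1 (z y a) l}
  have hBm : MeasurableSet B := by
    refine (hEm hq).diff ?_
    have : {y | ∃ m, E y ∈ V k n m fun a l => F0.1 (z y a) l} =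
        ⋃ m : ℕ, ⋃ v : Fin n → Fin m → ℕ, (E ⁻¹' V k n m v ∩
          ⋂ a : Fin n, ⋂ l : Fin m, {y | F0.1 (z y a) l = v a l}) := by
      ext y
      simp only [mem_ofPred_eq, mem_iUnion, mem_inter_iff, mem_preimage, mem_iInter]
      constructor
      · rintro ⟨m, h⟩
        exact ⟨m, _, h, fun a l => rfl⟩
      · rintro ⟨m, v, h, h'⟩
        refine ⟨m, ?_⟩
        have : (fun (a : Fin n) (l : Fin m) => F0.1 (z y a) l) = v := by
          funext a l; exact h' a l
        rw [this]; exact h
    rw [this]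
    refine MeasurableSet.iUnion fun m => MeasurableSet.iUnion fun v => ?_
    refine (hEm (hV k n m v)).inter (MeasurableSet.iInter fun a => MeasurableSet.iInter fun l => ?_)
    have h1 : Measurable fun y => F0.1 (z y a) l :=
      (measurable_pi_apply _).comp (F0.2.comp ((measurable_pi_apply a).comp hzm))
    exact h1 (measurableSet_singleton _)
  have hpre : ∀ j : Fin n → ℕ,
      q \ {ω | ∃ m, ω ∈ V k n m fun a l => x (i (j a)) ω l} =
        (fun (ω : J → Bool) (c : R ⊕ (Fin n × N)) => ω (g j c)) ⁻¹' B := by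
    intro j
    ext ω
    have h1 : ω ∈ q ↔ E (fun c => ω (g j c)) ∈ q :=
      ((hSq'.mono (subset_union_left.trans hS0R)).iff fun s hs => (hE j ω s hs).symm)
    have h2 : ∀ m v, ω ∈ V k n m v ↔ E (fun c => ω (g j c)) ∈ V k n m v := by
      intro m v
      refine ((hS' k n m v).mono (Subset.trans ?_ hS0R)).iff fun s hs => (hE j ω s hs).symm
      exact fun s hs => Or.inr (mem_iUnion.2 ⟨k, mem_iUnion.2 ⟨n, mem_iUnion.2 ⟨m,
        mem_iUnion.2 ⟨v, hs⟩⟩⟩⟩)
    have h3 : ∀ (a : Fin n) (l : ℕ), x (i (j a)) ω l = F0.1 (z (fun c => ω (g j c)) a) l := by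
      intro a l
      rw [hxF, hFF _ (hiT _), hz]
    simp only [mem_sdiff, mem_ofPred_eq, mem_preimage, B, h1]
    refine and_congr_right fun _ => not_congr (exists_congr fun m => ?_)
    rw [h2]
    simp only [h3]
  intro j hj
  rw [hpre j, cm_preimage (hg j hj) hBm, ← cm_preimage (hg (fun a => a.1) Fin.val_injective) hBm,
    ← hpre]
  exact hyp k n _ (hi.comp fun a b h => h)

end Pool.Agent.Helper584.RM
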