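import Pool.Agent.Helper584_RM.Lang
import Pool.Agent.H20R3.Yor.Defs

set_option autoImplicit false
set_option linter.all false

open Set MeasureTheory Filter
open scoped ENNReal symmDiff Topology
open Pool.Agent.H20R3.Yor (Cantor Cyl seg measurable_Cyl)

namespace Pool.Agent.Helper584.RM

/-- The symmetry principle for separable metric spaces in place of the Baire space. -/
theorem sym_metric {W : Type} [LinearOrder W] (hW : Sym₀ W) {Y : Type} [PseudoEMetricSpace Y]
    [TopologicalSpace.SeparableSpace Y] [Nonempty Y] (y : W → Y) (O : ℕ → (n : ℕ) → Set (Fin n → Y))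
    (hO : ∀ k n, IsOpen (O k n))
    (h : ∀ (k n : ℕ) (ξ : Fin n → W), StrictMono ξ → (fun a => y (ξ a)) ∈ O k n) :
    ∃ i : ℕ → W, Function.Injective i ∧
      ∀ (k n : ℕ) (j : Fin n → ℕ), Function.Injective j → (fun a => y (i (j a))) ∈ O k n := by
  classical
  let D : ℕ → Y := TopologicalSpace.denseSeq Y
  have hD : DenseRange D := TopologicalSpace.denseRange_denseSeq Y
  have hx : ∀ (w : W) (l : ℕ), ∃ c, edist (y w) (D c) < (2⁻¹ : ℝ≥0∞) ^ l := by
    intro w l
    have h1 : (Metric.eball (y w) ((2⁻¹ : ℝ≥0∞) ^ l)).Nonempty :=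
      ⟨y w, Metric.mem_eball_self (ENNReal.pow_pos (by simp) l)⟩
    obtain ⟨c, hc⟩ := hD.exists_mem_open Metric.isOpen_eball h1
    exact ⟨c, by rw [edist_comm]; exact hc⟩
  choose x hx using hx
  let U : ℕ → (n m : ℕ) → (Fin n → Fin m → ℕ) → Prop := fun k n m v =>
    ∃ (l : ℕ) (hl : l < m), ∀ z : Fin n → Y,
      (∀ a, edist (z a) (D (v a ⟨l, hl⟩)) < (2⁻¹ : ℝ≥0∞) ^ l) → z ∈ O k n
  obtain ⟨i, hi, hi'⟩ := hW x U (by
    intro k n ξ hξ
    have h1 := h k n ξ hξ
    obtain ⟨ε, hε, hball⟩ := EMetric.isOpen_iff.1 (hO k n) _ h1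
    obtain ⟨l, hl⟩ := ENNReal.exists_inv_two_pow_lt (a := ε / 2)
      (by simpa using hε.ne')
    refine ⟨l + 1, l, Nat.lt_succ_self l, fun z hz => hball ?_⟩
    rw [Metric.mem_eball, edist_pi_def, Finset.sup_lt_iff (by simpa using hε)]
    intro a _
    have h2 : edist (z a) (y (ξ a)) ≤ edist (z a) (D (x (ξ a) l)) + edist (y (ξ a)) (D (x (ξ a) l)) := by
      rw [edist_comm (y (ξ a))]
      exact edist_triangle _ _ _
    have h3 : edist (z a) (D (x (ξ a) l)) + edist (y (ξ a)) (D (x (ξ a) l)) < ε / 2 + ε / 2 :=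
      ENNReal.add_lt_add ((hz a).trans hl) ((hx (ξ a) l).trans hl)
    rw [ENNReal.add_halves] at h3
    exact h2.trans_lt h3)
  refine ⟨i, hi, fun k n j hj => ?_⟩
  obtain ⟨m, l, hl, h1⟩ := hi' k n j hj
  exact h1 _ fun a => hx _ _

/-! ### The space of measurable sets -/

section

variable {μ : Measure Cantor} [IsFiniteMeasure μ]

instance : TopologicalSpace.SeparableSpace (MeasuredSets μ) := by
  obtain ⟨A, hA, hA'⟩ := exists_countable_measureDense μ
  refine ⟨{t : MeasuredSets μ | t.1 ∈ A}, ?_, ?_⟩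
  · have : Function.Injective (Subtype.val : MeasuredSets μ → Set Cantor) := Subtype.val_injective
    exact hA.preimage this
  · rw [EMetric.dense_iff]
    intro s ε hε
    obtain ⟨δ, hδ, hδε⟩ := ENNReal.lt_iff_exists_nnreal_btwn.1 hε
    have hδ' : (0 : ℝ) < δ := by exact_mod_cast hδ
    obtain ⟨t, ht, hst⟩ := hA'.approx s.1 s.2 (measure_ne_top _ _) δ hδ'
    let t' : MeasuredSets μ := ⟨t, hA'.measurable t ht⟩
    refine ⟨t', ?_, ht⟩
    have h1 : edist s t' < ε := by
      rw [MeasuredSets.edist_def]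
      refine lt_of_lt_of_le hst ?_
      simpa using hδε.le
    rw [edist_comm] at h1
    exact h1

instance : Nonempty (MeasuredSets μ) := ⟨⟨∅, MeasurableSet.empty⟩⟩

end

/-! ### Boolean combinations -/

section

variable {ι : Type}

/-- a finite Boolean combination of the sets `E i` with a basic clopen set -/
def EL (E : ι → Set Cantor) (s : List Bool) (L : List (ι × Bool)) : Set Cantor :=
  {y | y ∈ Cyl s ∧ ∀ p ∈ L, (y ∈ E p.1 ↔ p.2 = true)}

theorem measurable_EL {E : ι → Set Cantor} (hE : ∀ i, MeasurableSet (E i)) (s : List Bool)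
    (L : List (ι × Bool)) : MeasurableSet (EL E s L) := by
  have : EL E s L = Cyl s ∩ ⋂ p ∈ {p | p ∈ L}, {y | y ∈ E p.1 ↔ p.2 = true} := by
    ext y; simp [EL]
  rw [this]
  refine (measurable_Cyl s).inter (MeasurableSet.biInter (L.finite_toSet).countable fun p _ => ?_)
  by_cases h : p.2 = true
  · have : {y | y ∈ E p.1 ↔ p.2 = true} = E p.1 := by ext y; simp [h]
    rw [this]; exact hE p.1
  · have : {y | y ∈ E p.1 ↔ p.2 = true} = (E p.1)ᶜ := by ext y; simp [h]
    rw [this]; exact (hE p.1).compl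

theorem EL_symmDiff {E E' : ι → Set Cantor} {s : List Bool} {L : List (ι × Bool)} :
    (EL E s L) ∆ (EL E' s L) ⊆ ⋃ p ∈ {p | p ∈ L}, (E p.1) ∆ (E' p.1) := by
  intro y hy
  by_contra hcon
  have h1 : ∀ p ∈ L, (y ∈ E p.1 ↔ y ∈ E' p.1) := by
    intro p hp
    by_contra h2
    apply hcon
    refine mem_iUnion₂.2 ⟨p, hp, ?_⟩
    rw [Set.mem_symmDiff]
    tauto
  have h2 : y ∈ EL E s L ↔ y ∈ EL E' s L := by
    refine and_congr Iff.rfl (forall₂_congr fun p hp => ?_)
    rw [h1 p hp]
  rw [Set.mem_symmDiff] at hy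
  tauto

variable {μ : Measure Cantor} [IsFiniteMeasure μ]

/-- the measurable version -/
def mEL (n : ℕ) (s : List Bool) (L : List (Fin n × Bool)) (E : Fin n → MeasuredSets μ) :
    MeasuredSets μ := ⟨EL (fun i => (E i).1) s L, measurable_EL (fun i => (E i).2) s L⟩

theorem continuous_mEL (n : ℕ) (s : List Bool) (L : List (Fin n × Bool)) :
    Continuous (mEL (μ := μ) n s L) := by
  rw [continuous_iff_continuousAt]
  intro E
  rw [ContinuousAt, tendsto_iff_edist_tendsto_0]
  have h1 : ∀ E' : Fin n → MeasuredSets μ, edist (mEL n s L E') (mEL n s L E) ≤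
      ∑ i : Fin n, edist (E' i) (E i) := by
    intro E'
    rw [MeasuredSets.edist_def]
    have h0 : (EL (fun i => (E' i).1) s L) ∆ (EL (fun i => (E i).1) s L) ⊆
        ⋃ i : Fin n, (E' i).1 ∆ (E i).1 := EL_symmDiff.trans
      (iUnion₂_subset fun p _ => subset_iUnion (fun i : Fin n => (E' i).1 ∆ (E i).1) p.1)
    refine (measure_mono h0).trans ((measure_iUnion_le _).trans ?_)
    · rw [tsum_fintype]
      exact le_rfl
  have h2 : Tendsto (fun E' : Fin n → MeasuredSets μ => ∑ i : Fin n, edist (E' i) (E i))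
      (𝓝 E) (𝓝 0) := by
    have h3 : Continuous fun E' : Fin n → MeasuredSets μ => ∑ i : Fin n, edist (E' i) (E i) :=
      continuous_finset_sum _ fun i _ => (continuous_apply i).edist continuous_const
    have := h3.tendsto E
    simpa using this
  exact tendsto_of_tendsto_of_tendsto_of_le_of_le tendsto_const_nhds h2 (fun _ => bot_le) h1

theorem continuous_measure_mEL (n : ℕ) (s : List Bool) (L : List (Fin n × Bool)) :
    Continuous fun E : Fin n → MeasuredSets μ => μ (EL (fun i => (E i).1) s L) :=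
  MeasuredSets.continuous_measure.comp (continuous_mEL n s L)

end

end Pool.Agent.Helper584.RM
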