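import Pool.Agent.Helper584_RM.ScatK

set_option autoImplicit false
set_option linter.all false

open Set MeasureTheory Filter ProbabilityTheory
open scoped ENNReal symmDiff Topology

namespace Pool.Agent.Helper584.RM

/-! ### The purely atomic case -/

/-- the cylinder of length `n` of `z` -/
def cy (n : ℕ) (z : ℕ → Bool) : Set (ℕ → Bool) := {z' | ∀ i < n, z' i = z i}

theorem measurable_cy (n : ℕ) (z : ℕ → Bool) : MeasurableSet (cy n z) := by
  have : cy n z = ⋂ i : ℕ, ⋂ (_ : i < n), (fun z' : ℕ → Bool => z' i) ⁻¹' {z i} := by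
    ext z'; simp [cy]
  rw [this]
  exact MeasurableSet.iInter fun i => MeasurableSet.iInter fun _ =>
    (measurable_pi_apply i) (measurableSet_singleton _)

section

variable {T : Type} [MeasurableSpace T] (κ : Kernel T (ℕ → Bool)) [IsMarkovKernel κ]

theorem measurable_c (n : ℕ) : Measurable fun p : T × (ℕ → Bool) => κ p.1 (cy n p.2) := by
  let F : T × (Fin n → Bool) → ℝ≥0∞ := fun p => κ p.1 {z' | ∀ i : Fin n, z' i = p.2 i}
  have hF : Measurable F := by
    refine measurable_from_prod_countable_left fun w => ?_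
    change Measurable fun t => κ t {z' : ℕ → Bool | ∀ i : Fin n, z' i = w i}
    refine κ.measurable_coe ?_
    have : {z' : ℕ → Bool | ∀ i : Fin n, z' i = w i} =
        ⋂ i : Fin n, (fun z' : ℕ → Bool => z' i) ⁻¹' {w i} := by
      ext z'; simp
    rw [this]
    exact MeasurableSet.iInter fun i => (measurable_pi_apply _) (measurableSet_singleton _)
  have h1 : (fun p : T × (ℕ → Bool) => κ p.1 (cy n p.2)) =
      F ∘ fun p => (p.1, fun i : Fin n => p.2 i) := by
    funext p
    simp only [F, Function.comp, cy]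
    congr 1
    ext z'
    exact ⟨fun h i => h i i.2, fun h i hi => h ⟨i, hi⟩⟩
  rw [h1]
  exact hF.comp (measurable_fst.prodMk
    (measurable_pi_lambda _ fun i => (measurable_pi_apply _).comp measurable_snd))

theorem cy_anti (z : ℕ → Bool) : Antitone fun n => cy n z :=
  fun _ _ h _ hz i hi => hz i (hi.trans_le h)

theorem iInter_cy (z : ℕ → Bool) : ⋂ n, cy n z = {z} := by
  ext z'
  simp only [mem_iInter, mem_singleton_iff]
  exact ⟨fun h => funext fun i => h (i + 1) i (Nat.lt_succ_self i), fun h => by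
    subst h; exact fun n i _ => rfl⟩

theorem tendsto_c (t : T) (z : ℕ → Bool) :
    Tendsto (fun n => κ t (cy n z)) atTop (𝓝 (κ t {z})) := by
  rw [← iInter_cy]
  exact tendsto_measure_iInter_atTop (fun n => (measurable_cy n z).nullMeasurableSet) (cy_anti z)
    ⟨0, measure_ne_top _ _⟩

theorem singleton_le (t : T) (z : ℕ → Bool) (n : ℕ) : κ t {z} ≤ κ t (cy n z) :=
  measure_mono (by rintro _ rfl; exact fun i _ => rfl)

theorem measurable_pt : Measurable fun p : T × (ℕ → Bool) => κ p.1 {p.2} := by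
  refine measurable_of_tendsto_metrizable (measurable_c κ) ?_
  rw [tendsto_pi_nhds]
  exact fun p => tendsto_c κ p.1 p.2

/-- the bad set -/
def bad (n : ℕ) : Set (T × (ℕ → Bool)) := {p | 2 * κ p.1 (cy (n + 1) p.2) ≤ κ p.1 (cy n p.2)}

theorem measurable_bad (n : ℕ) : MeasurableSet (bad κ n) :=
  measurableSet_le ((measurable_c κ (n + 1)).const_mul 2) (measurable_c κ n)

theorem eventually_not_bad {p : T × (ℕ → Bool)} (hp : κ p.1 {p.2} ≠ 0) :
    ∀ᶠ n in atTop, p ∉ bad κ n := by
  have h1 : κ p.1 {p.2} < 2 * κ p.1 {p.2} := by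
    have h2 : κ p.1 {p.2} ≠ ∞ := measure_ne_top _ _
    rw [two_mul]
    exact ENNReal.lt_add_right h2 hp
  filter_upwards [(tendsto_c κ p.1 p.2).eventually (gt_mem_nhds h1)] with n hn hbad
  have h3 : 2 * κ p.1 {p.2} ≤ 2 * κ p.1 (cy (n + 1) p.2) :=
    mul_le_mul_right (singleton_le κ _ _ _) 2
  exact absurd (hn.trans_le (h3.trans hbad)) (lt_irrefl _)

theorem bad_small {ρ : Measure (T × (ℕ → Bool))} [IsFiniteMeasure ρ]
    (hρ : ρ {p | κ p.1 {p.2} = 0} = 0) {ε : ℝ≥0∞} (hε : 0 < ε) : ∃ n, ρ (bad κ n) < ε := by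
  let M : ℕ → Set (T × (ℕ → Bool)) := fun n => ⋃ m, ⋃ (_ : n ≤ m), bad κ m
  have hM : Antitone M := by
    intro n n' h p hp
    simp only [M, mem_iUnion] at hp ⊢
    obtain ⟨m, hm, hp⟩ := hp
    exact ⟨m, h.trans hm, hp⟩
  have h1 : ρ (⋂ n, M n) = 0 := by
    refine measure_mono_null ?_ hρ
    intro p hp
    by_contra hne
    obtain ⟨n, hn⟩ := eventually_atTop.1 (eventually_not_bad κ hne)
    have h2 := mem_iInter.1 hp n
    simp only [M, mem_iUnion] at h2
    obtain ⟨m, hm, hp'⟩ := h2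
    exact hn m hm hp'
  have h2 : Tendsto (ρ ∘ M) atTop (𝓝 0) := by
    rw [← h1]
    exact tendsto_measure_iInter_atTop (fun n => (MeasurableSet.iUnion fun m =>
      MeasurableSet.iUnion fun _ => measurable_bad κ m).nullMeasurableSet) hM
      ⟨0, measure_ne_top _ _⟩
  obtain ⟨n, hn⟩ := (h2.eventually (gt_mem_nhds hε)).exists
  refine ⟨n, lt_of_le_of_lt (measure_mono ?_) hn⟩
  exact fun p hp => mem_iUnion.2 ⟨n, mem_iUnion.2 ⟨le_rfl, hp⟩⟩

end

/-- A measure concentrated on a set with countable sections has purely atomic conditional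
measures. -/
theorem atomic {ρ : Measure ((ℕ → Bool) × (ℕ → Bool))} [IsProbabilityMeasure ρ]
    {S : Set ((ℕ → Bool) × (ℕ → Bool))} (hS : MeasurableSet S) (hρS : ρ Sᶜ = 0)
    (hc : ∀ t, {z | (t, z) ∈ S}.Countable) :
    ρ {p | ρ.condKernel p.1 {p.2} = 0} = 0 := by
  have h0 : ρ.fst ⊗ₘ ρ.condKernel = ρ := ρ.disintegrate ρ.condKernel
  have hm : MeasurableSet {p : (ℕ → Bool) × (ℕ → Bool) | ¬ ρ.condKernel p.1 {p.2} = 0} :=
    ((measurable_pt ρ.condKernel) (measurableSet_singleton 0)).compl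
  have h1 : ∀ᵐ p ∂ρ, p ∈ S := by
    rw [ae_iff]; exact hρS
  have h2 : ∀ᵐ t ∂ρ.fst, ∀ᵐ z ∂(ρ.condKernel t), (t, z) ∈ S := by
    rw [← h0] at h1
    exact Measure.ae_ae_of_ae_compProd h1
  have h3 : ∀ᵐ p ∂(ρ.fst ⊗ₘ ρ.condKernel), ¬ ρ.condKernel p.1 {p.2} = 0 := by
    refine Measure.ae_compProd_of_ae_ae hm ?_
    filter_upwards [h2] with t ht
    have h4 : ρ.condKernel t {z | (t, z) ∈ S ∧ ρ.condKernel t {z} = 0} = 0 := by
      have h5 : ({z | (t, z) ∈ S ∧ ρ.condKernel t {z} = 0} : Set (ℕ → Bool)).Countable :=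
        (hc t).mono fun z hz => hz.1
      rw [← biUnion_of_singleton {z | (t, z) ∈ S ∧ ρ.condKernel t {z} = 0}]
      exact (measure_biUnion_null_iff h5).2 fun z hz => hz.2
    have h6 := measure_eq_zero_iff_ae_notMem.1 h4
    filter_upwards [ht, h6] with z hz hz' h7
    exact hz' ⟨hz, h7⟩
  rw [h0] at h3
  rw [ae_iff] at h3
  simpa using h3

/-! ### Continuous maps to the Cantor space given by clopen sets -/

section

variable {K : Type} [TopologicalSpace K]

open Classical in
/-- the map to the Cantor space given by a sequence of sets -/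
noncomputable def chi (b : ℕ → Set K) (x : K) (n : ℕ) : Bool := decide (x ∈ b n)

theorem chi_iff {b : ℕ → Set K} {x : K} {n : ℕ} : chi b x n = true ↔ x ∈ b n := by
  simp [chi]

theorem continuous_chi {b : ℕ → Set K} (hb : ∀ n, IsClopen (b n)) : Continuous (chi b) := by
  refine continuous_pi fun n => ?_
  have : Continuous fun x : K => (chi b x n) := by
    rw [continuous_discrete_rng]
    intro c
    have h1 : ((fun x : K => chi b x n) ⁻¹' {true}) = b n := by
      ext x; simp [chi]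
    have h2 : ((fun x : K => chi b x n) ⁻¹' {false}) = (b n)ᶜ := by
      ext x; simp [chi]
    cases c
    · rw [h2]; exact (hb n).compl.isOpen
    · rw [h1]; exact (hb n).isOpen
  exact this

end

section

variable {K Y : Type} [MeasurableSpace K] {μ : Measure K} [MeasurableSpace Y]

theorem limsup_approx {a : Set K} {g : K → Y} {E : ℕ → Set Y}
    (h : ∀ n, μ (a ∆ (g ⁻¹' E n)) ≤ (2⁻¹ : ℝ≥0∞) ^ n) :
    μ (a ∆ (g ⁻¹' limsup E atTop)) = 0 := by
  have h1 : μ (limsup (fun n => a ∆ (g ⁻¹' E n)) atTop) = 0 := by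
    refine measure_limsup_atTop_eq_zero ?_
    refine ne_top_of_le_ne_top ?_ (ENNReal.tsum_le_tsum h)
    rw [ENNReal.tsum_geometric, ENNReal.one_sub_inv_two, inv_inv]
    simp
  refine measure_mono_null ?_ h1
  intro x hx
  rw [mem_limsup_iff_frequently_mem]
  rcases hx with ⟨hx, hx'⟩ | ⟨hx, hx'⟩
  · have h2 : ∀ᶠ n in atTop, g x ∉ E n := by
      rw [mem_preimage, mem_limsup_iff_frequently_mem] at hx'
      exact not_frequently.1 hx'
    exact (h2.mono fun n hn => Or.inl ⟨hx, hn⟩).frequently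
  · rw [mem_preimage, mem_limsup_iff_frequently_mem] at hx
    exact hx.mono fun n hn => Or.inr ⟨hn, hx'⟩

end

end Pool.Agent.Helper584.RM
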